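import Pool.Agent.H467Z.Orb.Defs

set_option autoImplicit false

namespace Pool.Agent.H467Z.Orb

open Set Metric Quaternion Matrix

abbrev M3 : Type := Matrix (Fin 3) (Fin 3) ℝ

/-- The rotation matrix (times the squared norm) of a quaternion. -/
def R (x : ℍ[ℝ]) : M3 :=
  !![x.re ^ 2 + x.imI ^ 2 - x.imJ ^ 2 - x.imK ^ 2, 2 * (x.imI * x.imJ - x.re * x.imK),
      2 * (x.imI * x.imK + x.re * x.imJ);
    2 * (x.imI * x.imJ + x.re * x.imK), x.re ^ 2 - x.imI ^ 2 + x.imJ ^ 2 - x.imK ^ 2,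
      2 * (x.imJ * x.imK - x.re * x.imI);
    2 * (x.imI * x.imK - x.re * x.imJ), 2 * (x.imJ * x.imK + x.re * x.imI),
      x.re ^ 2 - x.imI ^ 2 - x.imJ ^ 2 + x.imK ^ 2]

lemma R_mul (x y : ℍ[ℝ]) : R (x * y) = R x * R y := by
  ext i j
  fin_cases i <;> fin_cases j <;>
    simp [R, Matrix.mul_apply, Fin.sum_univ_three] <;> ring

lemma R_star (x : ℍ[ℝ]) : R (star x) = (R x)ᵀ := by
  ext i j
  fin_cases i <;> fin_cases j <;> simp [R] <;> ring

lemma R_smul (t : ℝ) (x : ℍ[ℝ]) : R (t • x) = t ^ 2 • R x := by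
  ext i j
  fin_cases i <;> fin_cases j <;> simp [R] <;> ring

lemma R_one : R 1 = 1 := by
  ext i j
  fin_cases i <;> fin_cases j <;> simp [R]

lemma R_mul_T (x : ℍ[ℝ]) : R x * (R x)ᵀ = normSq x ^ 2 • (1 : M3) := by
  ext i j
  fin_cases i <;> fin_cases j <;>
    simp [R, Matrix.mul_apply, Fin.sum_univ_three, normSq_def'] <;> ring

lemma T_mul_R (x : ℍ[ℝ]) : (R x)ᵀ * R x = normSq x ^ 2 • (1 : M3) := by
  ext i j
  fin_cases i <;> fin_cases j <;>
    simp [R, Matrix.mul_apply, Fin.sum_univ_three, normSq_def'] <;> ring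

/-- The quaternion group of order eight. -/
def Q8 : Set ℍ[ℝ] := {u | normSq u = 1 ∧ (R u).IsDiag}

lemma Q8_one : (1 : ℍ[ℝ]) ∈ Q8 := ⟨by simp, by rw [R_one]; exact isDiag_one⟩

lemma Q8_neg_one : (-1 : ℍ[ℝ]) ∈ Q8 := by
  refine ⟨by simp, ?_⟩
  rw [show (-1 : ℍ[ℝ]) = (-1 : ℝ) • 1 by simp, R_smul, R_one]
  simpa using isDiag_one

lemma isDiag_mul {A B : M3} (hA : A.IsDiag) (hB : B.IsDiag) : (A * B).IsDiag := by
  rw [← hA.diagonal_diag, ← hB.diagonal_diag, diagonal_mul_diagonal]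
  exact isDiag_diagonal _

lemma Q8_mul {u v : ℍ[ℝ]} (hu : u ∈ Q8) (hv : v ∈ Q8) : u * v ∈ Q8 :=
  ⟨by rw [map_mul, hu.1, hv.1, one_mul], by rw [R_mul]; exact isDiag_mul hu.2 hv.2⟩

lemma Q8_star {u : ℍ[ℝ]} (hu : u ∈ Q8) : star u ∈ Q8 :=
  ⟨by rw [normSq_star, hu.1], by rw [R_star]; exact hu.2.transpose⟩

lemma Q8_finite : Q8.Finite := by
  have hf : ({-1, 0, 1} : Set ℝ).Finite := Set.toFinite _
  have := ((hf.prod hf).prod (hf.prod hf)).image
    (fun p : (ℝ × ℝ) × (ℝ × ℝ) => (⟨p.1.1, p.1.2, p.2.1, p.2.2⟩ : ℍ[ℝ]))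
  refine this.subset ?_
  rintro u ⟨h1, h2⟩
  rw [normSq_def'] at h1
  have a01 := h2 (i := 0) (j := 1) (by decide)
  have a10 := h2 (i := 1) (j := 0) (by decide)
  have a02 := h2 (i := 0) (j := 2) (by decide)
  have a20 := h2 (i := 2) (j := 0) (by decide)
  have a12 := h2 (i := 1) (j := 2) (by decide)
  have a21 := h2 (i := 2) (j := 1) (by decide)
  simp [R] at a01 a10 a02 a20 a12 a21
  have key : ∀ t : ℝ, t ^ 3 = t → t ∈ ({-1, 0, 1} : Set ℝ) := by
    intro t ht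
    have : (t + 1) * (t * (t - 1)) = 0 := by linarith
    rcases mul_eq_zero.mp this with h | h
    · left; linarith
    · rcases mul_eq_zero.mp h with h | h
      · right; left; exact h
      · right; right; exact sub_eq_zero.mp h
  have b1 : u.re * u.imI = 0 := by linarith
  have b2 : u.re * u.imJ = 0 := by linarith
  have b3 : u.re * u.imK = 0 := by linarith
  have b4 : u.imI * u.imJ = 0 := by linarith
  have b5 : u.imI * u.imK = 0 := by linarith
  have b6 : u.imJ * u.imK = 0 := by linarith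
  refine ⟨((u.re, u.imI), (u.imJ, u.imK)), ⟨⟨key _ ?_, key _ ?_⟩, key _ ?_, key _ ?_⟩, rfl⟩
  · linear_combination u.re * h1 - u.imI * b1 - u.imJ * b2 - u.imK * b3
  · linear_combination u.imI * h1 - u.re * b1 - u.imJ * b4 - u.imK * b5
  · linear_combination u.imJ * h1 - u.re * b2 - u.imI * b4 - u.imK * b6
  · linear_combination u.imK * h1 - u.re * b3 - u.imI * b5 - u.imJ * b6

/-- Conjugation of a diagonal matrix by the rotation of a nonzero quaternion. -/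
noncomputable def Cj (l : Fin 3 → ℝ) (x : ℍ[ℝ]) : M3 :=
  (normSq x ^ 2)⁻¹ • (R x * diagonal l * (R x)ᵀ)

lemma Cj_apply (l : Fin 3 → ℝ) (x : ℍ[ℝ]) (i j : Fin 3) : Cj l x i j =
    (normSq x ^ 2)⁻¹ * (R x i 0 * l 0 * R x j 0 + R x i 1 * l 1 * R x j 1 +
      R x i 2 * l 2 * R x j 2) := by
  simp [Cj, Matrix.mul_apply, Fin.sum_univ_three, Matrix.diagonal]

lemma Cj_smul (l : Fin 3 → ℝ) (x : ℍ[ℝ]) (t : ℝ) (ht : t ≠ 0) : Cj l (t • x) = Cj l x := by
  unfold Cj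
  rw [R_smul, normSq_smul, transpose_smul, Matrix.smul_mul, Matrix.smul_mul, Matrix.mul_smul,
    smul_smul, smul_smul]
  congr 1
  rw [mul_pow, mul_inv]
  field_simp

lemma Cj_mul (l : Fin 3 → ℝ) (x y : ℍ[ℝ]) :
    Cj l (x * y) = (normSq x ^ 2)⁻¹ • (R x * Cj l y * (R x)ᵀ) := by
  unfold Cj
  rw [R_mul, map_mul, transpose_mul, Matrix.mul_smul, Matrix.smul_mul, smul_smul, mul_pow, mul_inv]
  simp only [Matrix.mul_assoc]

lemma conj_Cj (l : Fin 3 → ℝ) (x y : ℍ[ℝ]) (hx : x ≠ 0) :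
    (R x)ᵀ * Cj l (x * y) * R x = normSq x ^ 2 • Cj l y := by
  have h : normSq x ^ 2 ≠ 0 := pow_ne_zero 2 (normSq_ne_zero.mpr hx)
  rw [Cj_mul, Matrix.mul_smul, Matrix.smul_mul]
  calc (normSq x ^ 2)⁻¹ • ((R x)ᵀ * (R x * Cj l y * (R x)ᵀ) * R x)
      = (normSq x ^ 2)⁻¹ • (((R x)ᵀ * R x) * Cj l y * ((R x)ᵀ * R x)) := by
        simp only [Matrix.mul_assoc]
    _ = _ := by
        rw [T_mul_R, Matrix.smul_mul, Matrix.smul_mul, Matrix.mul_smul, Matrix.one_mul,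
          Matrix.mul_one, smul_smul, smul_smul]
        congr 1
        field_simp

lemma Cj_one (l : Fin 3 → ℝ) : Cj l 1 = diagonal l := by
  simp [Cj, R_one]

lemma Cj_Q8 (l : Fin 3 → ℝ) {u : ℍ[ℝ]} (hu : u ∈ Q8) : Cj l u = diagonal l := by
  have h1 := R_mul_T u
  rw [hu.1] at h1
  unfold Cj
  rw [hu.1]
  have h2 : R u * diagonal l = diagonal l * R u := by
    rw [← hu.2.diagonal_diag, diagonal_mul_diagonal, diagonal_mul_diagonal]
    congr 1
    ext i
    ring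
  rw [h2, Matrix.mul_assoc, h1]
  simp

lemma Cj_mul_Q8 (l : Fin 3 → ℝ) (x : ℍ[ℝ]) {u : ℍ[ℝ]} (hu : u ∈ Q8) : Cj l (x * u) = Cj l x := by
  rw [Cj_mul, Cj_Q8 l hu]
  rfl

lemma mem_Q8_of_Cj (l : Fin 3 → ℝ) (hl : Function.Injective l) {u : ℍ[ℝ]} (hu : normSq u = 1)
    (h : Cj l u = diagonal l) : u ∈ Q8 := by
  refine ⟨hu, ?_⟩
  have h1 := T_mul_R u
  unfold Cj at h
  rw [hu] at h h1
  have h2 : R u * diagonal l = diagonal l * R u := by
    simp only [one_pow, inv_one, one_smul] at h1 h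
    calc R u * diagonal l = R u * diagonal l * ((R u)ᵀ * R u) := by rw [h1, Matrix.mul_one]
      _ = (R u * diagonal l * (R u)ᵀ) * R u := by simp only [Matrix.mul_assoc]
      _ = _ := by rw [h]
  intro i j hij
  have := congrFun (congrFun h2 i) j
  rw [mul_diagonal, diagonal_mul] at this
  have h3 : R u i j * (l j - l i) = 0 := by linarith
  rcases mul_eq_zero.mp h3 with h4 | h4
  · exact h4
  · exact absurd (hl (sub_eq_zero.mp h4)).symm hij

lemma fibre_Cj (l : Fin 3 → ℝ) (hl : Function.Injective l) {x y : ℍ[ℝ]} (hx : x ≠ 0)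
    (hn : normSq x = normSq y) (h : Cj l x = Cj l y) : ∃ u ∈ Q8, y = x * u := by
  have e : y = x * (x⁻¹ * y) := by rw [← mul_assoc, mul_inv_cancel₀ hx, one_mul]
  have h0 : normSq x ≠ 0 := normSq_ne_zero.mpr hx
  refine ⟨x⁻¹ * y, mem_Q8_of_Cj l hl ?_ ?_, e⟩
  · rw [map_mul, normSq_inv, ← hn, inv_mul_cancel₀ h0]
  · have h1 := conj_Cj l x (x⁻¹ * y) hx
    have h2 := conj_Cj l x 1 hx
    rw [← e, ← h] at h1
    rw [mul_one, h1, Cj_one] at h2
    exact smul_right_injective _ (pow_ne_zero 2 h0) h2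

lemma half_turn (p q : Fin 3 → ℝ) (hp : p ⬝ᵥ p = 1) (hq : q ⬝ᵥ q = 1) :
    ∃ (w : ℍ[ℝ]) (s : ℝ), normSq w = 1 ∧ s ≠ 0 ∧ R w *ᵥ p = s • q ∧
      ∀ v, v ⬝ᵥ p = 0 → v ⬝ᵥ q = 0 → R w *ᵥ v = -v := by
  have aux : ∀ p q : Fin 3 → ℝ, p ⬝ᵥ p = 1 → q ⬝ᵥ q = 1 → 0 ≤ p ⬝ᵥ q →
      ∃ w : ℍ[ℝ], normSq w = 1 ∧ R w *ᵥ p = q ∧
        ∀ v, v ⬝ᵥ p = 0 → v ⬝ᵥ q = 0 → R w *ᵥ v = -v := by
    intro p q hp hq hpq
    simp only [dotProduct, Fin.sum_univ_three] at hp hq hpq
    set w0 : ℍ[ℝ] := ⟨0, p 0 + q 0, p 1 + q 1, p 2 + q 2⟩ with hw0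
    have hn : normSq w0 = 2 + 2 * (p 0 * q 0 + p 1 * q 1 + p 2 * q 2) := by
      rw [normSq_def', hw0]
      simp only
      linear_combination hp + hq
    have hn0 : 0 < normSq w0 := by linarith
    have hs : (Real.sqrt (normSq w0))⁻¹ ^ 2 = (normSq w0)⁻¹ := by
      rw [inv_pow, Real.sq_sqrt hn0.le]
    have h1 : R w0 *ᵥ p = normSq w0 • q := by
      rw [hn]
      ext i
      fin_cases i <;> simp [R, hw0, mulVec, dotProduct, Fin.sum_univ_three]
      · linear_combination (p 0 + 2 * q 0) * hp - p 0 * hq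
      · linear_combination (p 1 + 2 * q 1) * hp - p 1 * hq
      · linear_combination (p 2 + 2 * q 2) * hp - p 2 * hq
    have h2 : ∀ v, v ⬝ᵥ p = 0 → v ⬝ᵥ q = 0 → R w0 *ᵥ v = normSq w0 • (-v) := by
      intro v h1 h2
      simp only [dotProduct, Fin.sum_univ_three] at h1 h2
      rw [normSq_def']
      ext i
      fin_cases i <;> simp [R, hw0, mulVec, dotProduct, Fin.sum_univ_three]
      · linear_combination (2 * (p 0 + q 0)) * (h1 + h2)
      · linear_combination (2 * (p 1 + q 1)) * (h1 + h2)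
      · linear_combination (2 * (p 2 + q 2)) * (h1 + h2)
    refine ⟨(Real.sqrt (normSq w0))⁻¹ • w0, ?_, ?_, ?_⟩
    · rw [normSq_smul, hs, inv_mul_cancel₀ hn0.ne']
    · rw [R_smul, hs, smul_mulVec, h1, smul_smul, inv_mul_cancel₀ hn0.ne', one_smul]
    · intro v a1 a2
      rw [R_smul, hs, smul_mulVec, h2 v a1 a2, smul_smul, inv_mul_cancel₀ hn0.ne', one_smul]
  rcases le_total 0 (p ⬝ᵥ q) with h | h
  · obtain ⟨w, h1, h2, h3⟩ := aux p q hp hq h
    exact ⟨w, 1, h1, one_ne_zero, by rw [h2, one_smul], h3⟩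
  · obtain ⟨w, h1, h2, h3⟩ := aux p (-q) hp (by simpa using hq) (by simpa using h)
    exact ⟨w, -1, h1, by norm_num, by rw [h2]; simp, fun v a1 a2 => h3 v a1 (by simpa using a2)⟩

lemma exists_Cj (O : M3) (hO : Oᵀ * O = 1) (l : Fin 3 → ℝ) :
    ∃ u : ℍ[ℝ], normSq u = 1 ∧ O * diagonal l * Oᵀ = Cj l u := by
  have col : ∀ (A : M3), Aᵀ * A = 1 → ∀ i j, (fun k => A k i) ⬝ᵥ (fun k => A k j) =
      (1 : M3) i j := by
    intro A hA i j
    rw [← hA]
    rfl
  have horth : ∀ (w : ℍ[ℝ]) (A : M3), normSq w = 1 → Aᵀ * A = 1 →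
      (R w * A)ᵀ * (R w * A) = 1 := by
    intro w A hw hA
    rw [transpose_mul, Matrix.mul_assoc, ← Matrix.mul_assoc (R w)ᵀ, T_mul_R, hw]
    simpa using hA
  obtain ⟨w1, s1, hw1, hs1, h1, -⟩ := half_turn (fun k => O k 0) ![1, 0, 0]
    (by rw [col O hO]; simp) (by simp [dotProduct, Fin.sum_univ_three])
  set O1 := R w1 * O with hO1
  have hO1o := horth w1 O hw1 hO
  have c0 : ∀ k, O1 k 0 = s1 * ![1, 0, 0] k := fun k => congrFun h1 k
  have c01 : O1 0 1 = 0 := by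
    have := col O1 hO1o 0 1
    simp [dotProduct, Fin.sum_univ_three, c0, hs1] at this
    exact this
  obtain ⟨w2, s2, hw2, hs2, h2, h3⟩ := half_turn (fun k => O1 k 1) ![0, 1, 0]
    (by rw [col O1 hO1o]; simp) (by simp [dotProduct, Fin.sum_univ_three])
  set O2 := R w2 * O1 with hO2
  have hO2o := horth w2 O1 hw2 hO1o
  have d1 : ∀ k, O2 k 1 = s2 * ![0, 1, 0] k := fun k => congrFun h2 k
  have d0 : ∀ k, O2 k 0 = -(s1 * ![1, 0, 0] k) := by
    intro k
    have := congrFun (h3 (fun k => O1 k 0) (by rw [col O1 hO1o]; simp)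
      (by simp [dotProduct, Fin.sum_univ_three, c0])) k
    rw [← c0]
    exact this
  have d02 : O2 0 2 = 0 := by
    have := col O2 hO2o 0 2
    simp [dotProduct, Fin.sum_univ_three, d0, hs1] at this
    exact this
  have d12 : O2 1 2 = 0 := by
    have := col O2 hO2o 1 2
    simp [dotProduct, Fin.sum_univ_three, d1, hs2] at this
    exact this
  have hd : O2.IsDiag := by
    intro i j hij
    fin_cases i <;> fin_cases j <;> simp_all
  have hcomm : O2 * diagonal l * O2ᵀ = diagonal l := by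
    have h2 : O2 * diagonal l = diagonal l * O2 := by
      rw [← hd.diagonal_diag, diagonal_mul_diagonal, diagonal_mul_diagonal]
      congr 1
      ext i
      ring
    rw [h2, Matrix.mul_assoc, mul_eq_one_comm.mp hO2o, Matrix.mul_one]
  have hw : normSq (w2 * w1) = 1 := by rw [map_mul, hw1, hw2, one_mul]
  refine ⟨star (w2 * w1), by rw [normSq_star, hw], ?_⟩
  have e : O2 = R (w2 * w1) * O := by rw [R_mul, Matrix.mul_assoc]
  have hT := T_mul_R (w2 * w1)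
  rw [hw] at hT
  simp only [one_pow, one_smul] at hT
  unfold Cj
  rw [normSq_star, hw, R_star, transpose_transpose]
  simp only [one_pow, inv_one, one_smul]
  conv_rhs => rw [← hcomm, e, transpose_mul]
  calc O * diagonal l * Oᵀ = ((R (w2 * w1))ᵀ * R (w2 * w1)) * (O * diagonal l * Oᵀ) *
        ((R (w2 * w1))ᵀ * R (w2 * w1)) := by rw [hT, Matrix.one_mul, Matrix.mul_one]
    _ = _ := by simp only [Matrix.mul_assoc]

lemma exists_spectral (N : M3) (hN : Nᵀ = N) :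
    ∃ (l : Fin 3 → ℝ) (u : ℍ[ℝ]), Monotone l ∧ normSq u = 1 ∧ N = Cj l u := by
  have hH : N.IsHermitian := by
    rw [Matrix.IsHermitian, conjTranspose_eq_transpose_of_trivial, hN]
  have h1 := hH.spectral_theorem
  rw [Unitary.conjStarAlgAut_apply] at h1
  set U : M3 := (hH.eigenvectorUnitary : M3) with hU
  have h2 : Uᵀ * U = 1 := by
    have := Unitary.coe_star_mul_self hH.eigenvectorUnitary
    rwa [star_eq_conjTranspose, conjTranspose_eq_transpose_of_trivial] at this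
  rw [star_eq_conjTranspose, conjTranspose_eq_transpose_of_trivial] at h1
  set μ : Fin 3 → ℝ := hH.eigenvalues with hμ
  let σ := Tuple.sort μ
  obtain ⟨u, hu, h⟩ := exists_Cj (U.submatrix id σ) (by
    ext i j
    have := congrFun (congrFun h2 (σ i)) (σ j)
    simp only [Matrix.mul_apply, transpose_apply, submatrix_apply, id, Matrix.one_apply,
      EmbeddingLike.apply_eq_iff_eq] at this ⊢
    exact this) (μ ∘ σ)
  refine ⟨μ ∘ σ, u, Tuple.monotone_sort μ, hu, ?_⟩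
  rw [← h, h1]
  ext i j
  simp only [Matrix.mul_apply, transpose_apply, submatrix_apply, id, Matrix.diagonal_apply,
    Function.comp, mul_ite, mul_zero, Finset.sum_ite_eq', Finset.mem_univ, if_true,
    RCLike.ofReal_real_eq_id]
  exact (Equiv.sum_comp σ (fun k => U i k * μ k * U j k)).symm

end Pool.Agent.H467Z.Orb
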