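import Mathlib

set_option autoImplicit false

namespace Pool.Agent.H467Z.Orb

open Set Metric
open scoped Manifold ContDiff Matrix

/-- Euclidean 4-space. -/
abbrev E4 : Type := EuclideanSpace ℝ (Fin 4)

/-- Derivative in the `i`-th coordinate direction. -/
noncomputable def pd (i : Fin 4) (f : E4 → ℝ) (x : E4) : ℝ :=
  fderiv ℝ f x (EuclideanSpace.single i 1)

/-- Christoffel symbols `Γ^k_{ij}` of the metric with coefficient matrix `G`. -/
noncomputable def christoffel (G : E4 → Matrix (Fin 4) (Fin 4) ℝ) (k i j : Fin 4) (x : E4) : ℝ :=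
  (1 / 2) * ∑ l, (G x)⁻¹ k l *
    (pd i (fun y => G y j l) x + pd j (fun y => G y i l) x - pd l (fun y => G y i j) x)

/-- Ricci tensor `R_{ij} = ∂_k Γ^k_{ij} - ∂_j Γ^k_{ik} + Γ^k_{kl} Γ^l_{ij} - Γ^k_{jl} Γ^l_{ik}`. -/
noncomputable def ricci (G : E4 → Matrix (Fin 4) (Fin 4) ℝ) (i j : Fin 4) (x : E4) : ℝ :=
  ∑ k, (pd k (christoffel G k i j) x - pd j (christoffel G k i k) x)
    + ∑ k, ∑ l, (christoffel G k k l x * christoffel G l i j x
      - christoffel G k j l x * christoffel G l i k x)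

/-- `G` is (the coefficient matrix of) a smooth Riemannian metric on the open set `W` with
`Ric = c G`. -/
structure IsEinsteinOn (G : E4 → Matrix (Fin 4) (Fin 4) ℝ) (c : ℝ) (W : Set E4) : Prop where
  smooth : ∀ i j, ContDiffOn ℝ ∞ (fun x => G x i j) W
  posDef : ∀ x ∈ W, (G x).PosDef
  einstein : ∀ x ∈ W, ∀ i j, ricci G i j x = c * G x i j

/-- The open ball of radius `r` about the origin. -/
def B4 (r : ℝ) : Set E4 := ball 0 r

/-- The differential of `τ` at `z`, applied to `v`. -/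
noncomputable def D4 (τ : E4 → E4) (z v : E4) : E4 := fderiv ℝ τ z v

/-- `τ` is smooth on `O`. -/
def Smooth4 (τ : E4 → E4) (O : Set E4) : Prop := ContDiffOn ℝ ∞ τ O

/-- The bilinear form with matrix `A`. -/
def bil (A : Matrix (Fin 4) (Fin 4) ℝ) (v w : E4) : ℝ := v.ofLp ⬝ᵥ (A *ᵥ w.ofLp)

/-- `Γ` is a finite subgroup of `O(4)` acting freely off the origin (equivalently, on the unit
sphere). -/
structure IsFreeOrthGroup (Γ : Set (E4 → E4)) : Prop where
  finite : Γ.Finite
  linear : ∀ γ ∈ Γ, IsLinearMap ℝ γ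
  norm_eq : ∀ γ ∈ Γ, ∀ x, ‖γ x‖ = ‖x‖
  one : id ∈ Γ
  mul : ∀ γ ∈ Γ, ∀ γ' ∈ Γ, γ ∘ γ' ∈ Γ
  inv : ∀ γ ∈ Γ, ∃ γ' ∈ Γ, γ' ∘ γ = id
  free : ∀ γ ∈ Γ, ∀ x : E4, x ≠ 0 → γ x = x → γ = id

/-- A uniformising chart of `V`: the map `φ` induces a homeomorphism from the quotient of the open
ball of radius `r` by the finite group `Γ ≤ O(4)`, which acts freely off the origin, onto an open
subset of `V`; the ball carries the smooth Einstein metric `G`. -/
structure OrbChart (V : Type) [TopologicalSpace V] (c : ℝ) where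
  r : ℝ
  r_pos : 0 < r
  Γ : Set (E4 → E4)
  group : IsFreeOrthGroup Γ
  φ : E4 → V
  cont : ContinuousOn φ (B4 r)
  fibre : ∀ x ∈ B4 r, ∀ y ∈ B4 r, φ x = φ y ↔ ∃ γ ∈ Γ, γ x = y
  isOpen_image : ∀ W ⊆ B4 r, IsOpen W → IsOpen (φ '' W)
  G : E4 → Matrix (Fin 4) (Fin 4) ℝ
  einstein : IsEinsteinOn G c (B4 r)

/-- Near `x` the change of charts from `a` to `b` is a smooth isometry `τ` with `τ x = y`. -/
def IsometricChange {V : Type} [TopologicalSpace V] {c : ℝ} (a b : OrbChart V c) (x y : E4) :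
    Prop :=
  ∃ (O : Set E4) (τ : E4 → E4), IsOpen O ∧ x ∈ O ∧ O ⊆ B4 a.r ∧ τ x = y ∧ Smooth4 τ O ∧
    ∀ z ∈ O, τ z ∈ B4 b.r ∧ b.φ (τ z) = a.φ z ∧
      ∀ v w : E4, bil (b.G (τ z)) (D4 τ z v) (D4 τ z w) = bil (a.G z) v w

/-- A closed Einstein 4-orbifold structure on `V` with isolated singular points. The singular set
`sing` is finite and consists of the centres of the charts with nontrivial group; off `sing` the
changes of charts are smooth isometries, so that `V \ sing` is a smooth Riemannian manifold with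
`Ric = c g`, and the metric `G` of a chart centred at a singular point is the smooth extension
across the origin of the lift of `g`. -/
structure EinsteinOrbifold (V : Type) [TopologicalSpace V] where
  compact : CompactSpace V
  t2 : T2Space V
  c : ℝ
  ι : Type
  chart : ι → OrbChart V c
  cover : ∀ v : V, ∃ a, ∃ x ∈ B4 (chart a).r, (chart a).φ x = v
  sing : Set V
  sing_finite : sing.Finite
  mem_sing : ∀ a, ∀ x ∈ B4 (chart a).r, (chart a).φ x ∈ sing ↔ x = 0 ∧ (chart a).Γ ≠ {id}
  compat : ∀ a b, ∀ x ∈ B4 (chart a).r, ∀ y ∈ B4 (chart b).r,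
    (chart a).φ x = (chart b).φ y → (chart a).φ x ∉ sing → IsometricChange (chart a) (chart b) x y

/-- `ψ` is a smooth map from the subset `W` of 4-space to the manifold `M`. -/
def SmoothInto {M : Type*} [TopologicalSpace M] [ChartedSpace E4 M] (ψ : E4 → M) (W : Set E4) :
    Prop :=
  ContMDiffOn (𝓡 4) (𝓡 4) ∞ ψ W

/-- `π : M → V` is a resolution of the Einstein orbifold `V`: a continuous surjection whose fibres
over the singular points are compact and connected, and which restricts to a diffeomorphism from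
the complement of these fibres onto `V \ sing` (it is injective there, and its inverse, read in
every chart, is smooth with invertible differential). -/
structure IsResolution {M : Type*} [TopologicalSpace M] [ChartedSpace E4 M]
    {V : Type} [TopologicalSpace V] (A : EinsteinOrbifold V) (π : M → V) : Prop where
  cont : Continuous π
  surj : Function.Surjective π
  fibre : ∀ q ∈ A.sing, IsCompact (π ⁻¹' {q}) ∧ IsConnected (π ⁻¹' {q})
  inj : InjOn π (π ⁻¹' A.singᶜ)
  diffeo : ∀ a, ∃ ψ : E4 → M,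
    SmoothInto ψ (B4 (A.chart a).r \ (A.chart a).φ ⁻¹' A.sing) ∧
    ∀ x ∈ B4 (A.chart a).r \ (A.chart a).φ ⁻¹' A.sing,
      π (ψ x) = (A.chart a).φ x ∧ Function.Bijective (D4 (chartAt E4 (ψ x) ∘ ψ) x)

end Pool.Agent.H467Z.Orb
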