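import Pool.Agent.H467Z.Orb.Geo

set_option autoImplicit false

namespace Pool.Agent.H467Z.Orb

open Set Metric Quaternion Matrix Filter Topology
open scoped ContDiff

/-- Coordinates of a quaternion. -/
noncomputable abbrev T : ℍ[ℝ] ≃ₗᵢ[ℝ] E4 := Quaternion.linearIsometryEquivTuple

lemma normSq_T (x : E4) : normSq (T.symm x) = ‖x‖ ^ 2 := by
  rw [normSq_eq_norm_mul_self, LinearIsometryEquiv.norm_map, sq]

lemma T_ne {x : E4} (hx : x ≠ 0) : T.symm x ≠ 0 := fun h =>
  hx (T.symm.injective (h.trans (map_zero _).symm))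

/-- The radial parameter. -/
noncomputable def bb (t : ℝ) : ℝ := 1 / 10 * ((t - 1) / (t + 1))

lemma bb_lt {t : ℝ} (ht : 0 ≤ t) : bb t < 1 / 10 := by
  unfold bb
  have : (t - 1) / (t + 1) < 1 := by rw [div_lt_one (by linarith)]; linarith
  linarith

lemma bb_ge {t : ℝ} (ht : 0 ≤ t) : -(1 / 10) ≤ bb t := by
  unfold bb
  have : -1 ≤ (t - 1) / (t + 1) := by rw [le_div_iff₀ (by linarith)]; linarith
  linarith

lemma bb_gt {t : ℝ} (ht : 0 < t) : -(1 / 10) < bb t := by
  unfold bb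
  have : -1 < (t - 1) / (t + 1) := by rw [lt_div_iff₀ (by linarith)]; linarith
  linarith

lemma abs_bb_le {s : ℝ} (hs : |s| = 1) (x : E4) : |s * bb (‖x‖ ^ 2)| ≤ 1 / 10 := by
  rw [abs_mul, hs, one_mul, abs_le]
  exact ⟨bb_ge (by positivity), (bb_lt (by positivity)).le⟩

lemma abs_bb_lt {s : ℝ} (hs : |s| = 1) {x : E4} (hx : x ≠ 0) : |s * bb (‖x‖ ^ 2)| < 1 / 10 := by
  rw [abs_mul, hs, one_mul, abs_lt]
  exact ⟨bb_gt (by positivity), bb_lt (by positivity)⟩

/-- The matrix attached to a point of punctured 4-space. -/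
noncomputable def Bm (s : ℝ) (x : E4) : M3 := Cj (lam (s * bb (‖x‖ ^ 2))) (T.symm x)

/-- The covering of the annular region. -/
noncomputable def F (s : ℝ) (x : E4) : E4 := st (Bm s x)

lemma contDiff_R (i j : Fin 3) : ContDiff ℝ ∞ (fun x : E4 => R (T.symm x) i j) := by
  have hc : ∀ a : Fin 4, ContDiff ℝ ∞ (fun y : E4 => y a) :=
    fun a => (EuclideanSpace.proj a : E4 →L[ℝ] ℝ).contDiff
  have c0 := hc 0
  have c1 := hc 1
  have c2 := hc 2
  have c3 := hc 3
  fin_cases i <;> fin_cases j <;> simp [R, T] <;> fun_prop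

lemma contDiff_bb (s : ℝ) : ContDiff ℝ ∞ (fun x : E4 => s * bb (‖x‖ ^ 2)) := by
  have h := contDiff_norm_sq ℝ (n := ∞) (E := E4)
  unfold bb
  exact contDiff_const.mul (contDiff_const.mul ((h.sub contDiff_const).div (h.add contDiff_const)
    fun x => by positivity))

lemma contDiffAt_lam (k : Fin 3) {b : ℝ} (hb : |b| ≤ 1 / 10) :
    ContDiffAt ℝ ∞ (fun t => lam t k) b := by
  have h : ContDiffAt ℝ ∞ (fun t : ℝ => Real.sqrt (3 - 3 * t ^ 2)) b := by
    refine ContDiffAt.sqrt (by fun_prop) ?_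
    rw [abs_le] at hb
    nlinarith
  fin_cases k
  · exact contDiffAt_id.sub h
  · exact contDiffAt_const.mul contDiffAt_id
  · exact contDiffAt_id.add h

lemma contDiffAt_Bm {s : ℝ} (hs : |s| = 1) {x : E4} (hx : x ≠ 0) (i j : Fin 3) :
    ContDiffAt ℝ ∞ (fun y => Bm s y i j) x := by
  have h1 : ∀ k, ContDiffAt ℝ ∞ (fun y : E4 => lam (s * bb (‖y‖ ^ 2)) k) x := fun k =>
    ContDiffAt.comp (g := fun t => lam t k) (f := fun y : E4 => s * bb (‖y‖ ^ 2)) x
      (contDiffAt_lam k (abs_bb_le hs x)) (contDiff_bb s).contDiffAt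
  have h2 := fun a b => (contDiff_R a b).contDiffAt (x := x)
  have h3 : ContDiffAt ℝ ∞ (fun y : E4 => ((‖y‖ ^ 2) ^ 2)⁻¹) x :=
    ((contDiff_norm_sq ℝ).contDiffAt.pow 2).inv (by positivity)
  simp only [Bm, Cj_apply, normSq_T]
  exact h3.mul (((((h2 _ _).mul (h1 _)).mul (h2 _ _)).add (((h2 _ _).mul (h1 _)).mul (h2 _ _))).add
    (((h2 _ _).mul (h1 _)).mul (h2 _ _)))

lemma Bm_prop {s : ℝ} (hs : |s| = 1) {x : E4} (hx : x ≠ 0) :
    Sph (Bm s x) ∧ (Bm s x).det = dd (s * bb (‖x‖ ^ 2)) ∧ Bm s x 2 2 < 2 :=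
  Cj_lam (abs_bb_le hs x) (T_ne hx)

lemma contDiffAt_F {s : ℝ} (hs : |s| = 1) {x : E4} (hx : x ≠ 0) : ContDiffAt ℝ ∞ (F s) x := by
  have h := contDiffAt_Bm hs hx
  have h0 : 2 - Bm s x 2 2 ≠ 0 := by have := (Bm_prop hs hx).2.2; linarith
  unfold F st
  refine ContDiffAt.smul ((contDiffAt_const.sub (h 2 2)).inv h0) ?_
  rw [contDiffAt_euclidean]
  intro i
  fin_cases i
  · exact h 0 1
  · exact h 0 2
  · exact h 1 2
  · exact ((h 0 0).sub (h 1 1)).div_const 2

/-- Derivative of the rotation matrix at the identity. -/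
def Rd (w : ℍ[ℝ]) : M3 :=
  !![2 * w.re, -(2 * w.imK), 2 * w.imJ; 2 * w.imK, 2 * w.re, -(2 * w.imI);
    -(2 * w.imJ), 2 * w.imI, 2 * w.re]

lemma hasDerivAt_quad (a b c : ℝ) : HasDerivAt (fun t : ℝ => a + t * b + t ^ 2 * c) b 0 := by
  have := (((hasDerivAt_id' (0 : ℝ)).mul_const b).const_add a).fun_add
    ((hasDerivAt_pow 2 (0 : ℝ)).mul_const c)
  exact this.congr_deriv (by simp)

lemma R_line (w : ℍ[ℝ]) (t : ℝ) (i j : Fin 3) :
    R (1 + t • w) i j = (1 : M3) i j + t * Rd w i j + t ^ 2 * R w i j := by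
  fin_cases i <;> fin_cases j <;> simp [R, Rd] <;> ring

lemma normSq_line (w : ℍ[ℝ]) (t : ℝ) :
    normSq (1 + t • w) = 1 + t * (2 * w.re) + t ^ 2 * normSq w := by
  simp [normSq_def']
  ring

lemma hasDerivAt_Cj (w : ℍ[ℝ]) (l : ℝ → Fin 3 → ℝ) (l' : Fin 3 → ℝ)
    (hl : ∀ k, HasDerivAt (fun t => l t k) (l' k) 0) (i j : Fin 3) :
    HasDerivAt (fun t => Cj (l t) (1 + t • w) i j)
      (-4 * w.re * diagonal (l 0) i j + diagonal l' i j + Rd w i j * l 0 j + Rd w j i * l 0 i) 0 := by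
  have hR : ∀ a b, HasDerivAt (fun t : ℝ => R (1 + t • w) a b) (Rd w a b) 0 := by
    intro a b
    simp only [R_line]
    exact hasDerivAt_quad _ _ _
  have hm : HasDerivAt (fun t : ℝ => normSq (1 + t • w)) (2 * w.re) 0 := by
    simp only [normSq_line]
    exact hasDerivAt_quad _ _ _
  have hm2 := (hm.fun_pow 2).fun_inv (by simp)
  have := hm2.fun_mul (((((hR i 0).fun_mul (hl 0)).fun_mul (hR j 0)).fun_add
    (((hR i 1).fun_mul (hl 1)).fun_mul (hR j 1))).fun_add
      (((hR i 2).fun_mul (hl 2)).fun_mul (hR j 2)))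
  simp only [Cj_apply]
  refine this.congr_deriv ?_
  fin_cases i <;> fin_cases j <;> simp [R_one] <;> ring

lemma fderiv_F_inj {s : ℝ} (hs : |s| = 1) {x : E4} (hx : x ≠ 0) :
    Function.Injective (fderiv ℝ (F s) x) := by
  rw [injective_iff_map_eq_zero]
  intro v hv
  set X := T.symm x with hX
  have hX0 : X ≠ 0 := T_ne hx
  set w := X⁻¹ * T.symm v with hw
  have hline : ∀ t : ℝ, T.symm (x + t • v) = X * (1 + t • w) := by
    intro t
    rw [map_add, map_smul, mul_add, mul_one, mul_smul_comm, hw, ← mul_assoc, mul_inv_cancel₀ hX0,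
      one_mul]
  have hc : HasDerivAt (fun t : ℝ => x + t • v) v 0 := by
    simpa using ((hasDerivAt_id (0 : ℝ)).smul_const v).const_add x
  have hF : HasDerivAt (fun t : ℝ => F s (x + t • v)) 0 0 := by
    have h1 : HasFDerivAt (F s) (fderiv ℝ (F s) x) (x + (0 : ℝ) • v) := by
      simpa using ((contDiffAt_F hs hx).differentiableAt (by simp)).hasFDerivAt
    have := h1.comp_hasDerivAt (0 : ℝ) hc
    rwa [hv] at this
  have hne : ∀ᶠ t : ℝ in 𝓝 0, x + t • v ≠ 0 :=
    hc.continuousAt.eventually_ne (by simpa using hx)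
  have hB : ∀ i j, HasDerivAt (fun t : ℝ => Bm s (x + t • v) i j) 0 0 := by
    intro i j
    have h1 := ((diff_un i j) (F s (x + (0 : ℝ) • v))).hasFDerivAt.comp_hasDerivAt (0 : ℝ) hF
    rw [map_zero] at h1
    refine h1.congr_of_eventuallyEq ?_
    filter_upwards [hne] with t ht
    simp only [Function.comp, F]
    rw [un_st (Bm_prop hs ht).1 (Bm_prop hs ht).2.2]
  set n := normSq X with hn
  have hn0 : 0 < n := lt_of_le_of_ne normSq_nonneg (normSq_ne_zero.mpr hX0).symm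
  let b : ℝ → ℝ := fun t => s * bb (‖x + t • v‖ ^ 2)
  have hD : ∀ i j, HasDerivAt (fun t : ℝ => Cj (lam (b t)) (1 + t • w) i j) 0 0 := by
    intro i j
    have e : ∀ t : ℝ, Cj (lam (b t)) (1 + t • w) i j =
        (n ^ 2)⁻¹ * ∑ c, (∑ a, R X a i * Bm s (x + t • v) a c) * R X c j := by
      intro t
      have := congrFun (congrFun (conj_Cj (lam (b t)) X (1 + t • w) hX0) i) j
      simp only [Matrix.mul_apply, transpose_apply, Matrix.smul_apply, smul_eq_mul] at this
      simp only [Bm, hline]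
      rw [this, ← hn]
      field_simp
    simp only [e]
    have := (HasDerivAt.fun_sum (u := Finset.univ) fun c _ =>
      (HasDerivAt.fun_sum (u := Finset.univ) fun a _ =>
        (hB a c).const_mul (R X a i)).mul_const (R X c j)).const_mul (n ^ 2)⁻¹
    simpa using this
  have hb : HasDerivAt b (s * (1 / 10 * (4 * n * w.re / (n + 1) ^ 2))) 0 := by
    have e : b = fun t : ℝ => s * (1 / 10 * ((n * (1 + t * (2 * w.re) + t ^ 2 * normSq w) - 1) /
        (n * (1 + t * (2 * w.re) + t ^ 2 * normSq w) + 1))) := by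
      ext t
      simp only [b, bb]
      rw [← normSq_T, hline, map_mul, normSq_line]
    rw [e]
    have h1 := (hasDerivAt_quad 1 (2 * w.re) (normSq w)).const_mul n
    have := (((h1.sub_const 1).fun_div (h1.add_const 1) (by simp; linarith)).const_mul
      (1 / 10)).const_mul s
    refine this.congr_deriv ?_
    simp
    left
    field_simp
    ring
  have hb0 : |b 0| ≤ 1 / 10 := abs_bb_le hs _
  have hl : ∀ k, HasDerivAt (fun t => lam (b t) k) (deriv (fun t => lam (b t) k) 0) 0 := fun k =>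
    (((contDiffAt_lam k hb0).differentiableAt (by simp)).comp 0 hb.differentiableAt).hasDerivAt
  have hl1 : deriv (fun t => lam (b t) 1) 0 = -2 * (s * (1 / 10 * (4 * n * w.re / (n + 1) ^ 2))) :=
    (hb.const_mul (-2)).deriv
  have key := fun i j => (hasDerivAt_Cj w (fun t => lam (b t)) _ hl i j).unique (hD i j)
  have k11 := key 1 1
  have k01 := key 0 1
  have k02 := key 0 2
  have k12 := key 1 2
  simp only [diagonal_apply_eq, hl1] at k11
  simp [Rd] at k11 k01 k02 k12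
  have hi := lam_inj hb0
  have hs0 : s ≠ 0 := by
    rintro rfl
    simp at hs
  have w0 : w.re = 0 := by
    have : s * (10⁻¹ * (4 * n * w.re / (n + 1) ^ 2)) = 0 := by linarith
    simpa [hs0, hn0.ne', (by linarith : n + 1 ≠ 0)] using this
  have aux : ∀ (i j : Fin 3) (c : ℝ), i ≠ j → c * (lam (b 0) i - lam (b 0) j) = 0 → c = 0 := by
    intro i j c hij h
    rcases mul_eq_zero.mp h with h | h
    · exact h
    · exact absurd (hi (sub_eq_zero.mp h)) hij
  have w3 : w.imK = 0 := aux 0 1 _ (by decide) (by linarith)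
  have w2 : w.imJ = 0 := aux 0 2 _ (by decide) (by linarith)
  have w1 : w.imI = 0 := aux 1 2 _ (by decide) (by linarith)
  have hw0 : w = 0 := Quaternion.ext _ _ w0 w1 w2 w3
  rw [hw, mul_eq_zero] at hw0
  rcases hw0 with h | h
  · exact absurd h (inv_ne_zero hX0)
  · exact T.symm.injective (h.trans (map_zero _).symm)

lemma fderiv_F_bij {s : ℝ} (hs : |s| = 1) {x : E4} (hx : x ≠ 0) :
    Function.Bijective (fderiv ℝ (F s) x) :=
  ⟨fderiv_F_inj hs hx,
    (LinearMap.injective_iff_surjective (f := (fderiv ℝ (F s) x).toLinearMap)).mp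
      (fderiv_F_inj hs hx)⟩

end Pool.Agent.H467Z.Orb
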