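import Pool.Agent.H467Z.Orb.Defs

set_option autoImplicit false

namespace Pool.Agent.H467Z.Orb

open Set Metric
open scoped Manifold ContDiff Matrix

/-- The round metric in stereographic coordinates. -/
noncomputable def Gr (x : E4) : Matrix (Fin 4) (Fin 4) ℝ := (4 / (1 + ‖x‖ ^ 2) ^ 2) • (1 : Matrix _ _ ℝ)

lemma hn (x : E4) : HasFDerivAt (fun y : E4 => 1 + ‖y‖ ^ 2) (2 • innerSL ℝ x) x :=
  (hasStrictFDerivAt_norm_sq x).hasFDerivAt.const_add 1

lemma pos1 (x : E4) : 0 < 1 + ‖x‖ ^ 2 := by positivity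

lemma pd_lam (i : Fin 4) (c : ℝ) (x : E4) :
    pd i (fun y => 4 / (1 + ‖y‖ ^ 2) ^ 2 * c) x = -16 * x i / (1 + ‖x‖ ^ 2) ^ 3 * c := by
  have h0 := (pos1 x).ne'
  have h1 : HasDerivAt (fun t : ℝ => 4 / t ^ 2 * c) (-8 / (1 + ‖x‖ ^ 2) ^ 3 * c) (1 + ‖x‖ ^ 2) := by
    have := ((HasDerivAt.inv (c := fun t : ℝ => t ^ 2) (hasDerivAt_pow 2 (1 + ‖x‖ ^ 2))
      (pow_ne_zero 2 h0)).const_mul 4).mul_const c
    have e : (fun t : ℝ => 4 / t ^ 2 * c) = fun y => 4 * (fun t : ℝ => t ^ 2)⁻¹ y * c := by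
      ext t; simp [div_eq_mul_inv]
    rw [e]
    refine this.congr_deriv ?_
    field_simp
    norm_num
    ring
  have h2 := h1.comp_hasFDerivAt x (hn x)
  unfold pd
  rw [show (fun y : E4 => 4 / (1 + ‖y‖ ^ 2) ^ 2 * c) =
    (fun t : ℝ => 4 / t ^ 2 * c) ∘ (fun y : E4 => 1 + ‖y‖ ^ 2) from rfl, h2.fderiv]
  simp [EuclideanSpace.inner_single_right]
  ring

lemma Gr_inv (x : E4) : (Gr x)⁻¹ = ((1 + ‖x‖ ^ 2) ^ 2 / 4) • (1 : Matrix _ _ ℝ) := by
  apply Matrix.inv_eq_left_inv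
  have h0 := (pos1 x).ne'
  rw [Gr, Matrix.smul_mul, Matrix.mul_smul, smul_smul, one_mul]
  rw [show (1 + ‖x‖ ^ 2) ^ 2 / 4 * (4 / (1 + ‖x‖ ^ 2) ^ 2) = 1 by field_simp, one_smul]

/-- Kronecker delta. -/
def dl (i j : Fin 4) : ℝ := if i = j then 1 else 0

lemma chr_Gr (k i j : Fin 4) : christoffel Gr k i j =
    fun x => -2 * (x i * dl j k + x j * dl i k - x k * dl i j) / (1 + ‖x‖ ^ 2) := by
  ext x
  have h0 := (pos1 x).ne'
  unfold christoffel
  have e : ∀ a b, (fun y => Gr y a b) = fun y : E4 => 4 / (1 + ‖y‖ ^ 2) ^ 2 * dl a b := by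
    intro a b
    ext y
    simp [Gr, dl, Matrix.one_apply]
  simp only [e, pd_lam, Gr_inv, Matrix.smul_apply, Matrix.one_apply, smul_eq_mul, mul_ite, mul_one,
    mul_zero, ite_mul, zero_mul, Finset.sum_ite_eq, Finset.mem_univ, if_true]
  field_simp
  ring

lemma pd_chr (l : Fin 4) (k i j : Fin 4) (x : E4) : pd l (christoffel Gr k i j) x =
    -2 * (dl i l * dl j k + dl j l * dl i k - dl k l * dl i j) / (1 + ‖x‖ ^ 2) +
      4 * x l * (x i * dl j k + x j * dl i k - x k * dl i j) / (1 + ‖x‖ ^ 2) ^ 2 := by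
  have h0 := (pos1 x).ne'
  rw [chr_Gr]
  have hc : ∀ a : Fin 4, HasFDerivAt (fun y : E4 => y a) (EuclideanSpace.proj a : E4 →L[ℝ] ℝ) x :=
    fun a => (EuclideanSpace.proj a : E4 →L[ℝ] ℝ).hasFDerivAt
  have h1 := ((((hc i).mul_const (dl j k)).add ((hc j).mul_const (dl i k))).sub
    ((hc k).mul_const (dl i j))).const_mul (-2)
  have h2 := ((hasDerivAt_inv h0).comp_hasFDerivAt x (hn x))
  have h3 := h1.mul h2
  unfold pd
  have e : (fun x : E4 => -2 * (x i * dl j k + x j * dl i k - x k * dl i j) / (1 + ‖x‖ ^ 2)) =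
      (fun y : E4 => -2 * ((((fun y : E4 => y i * dl j k) + (fun y : E4 => y j * dl i k)) -
        fun y : E4 => y k * dl i j) y)) * ((fun y : ℝ => y⁻¹) ∘ fun y : E4 => 1 + ‖y‖ ^ 2) := by
    ext y
    simp [div_eq_mul_inv]
  rw [e, h3.fderiv]
  have e2 : ∀ (a : Fin 4) (t : ℝ), (if a = l then t else 0) = dl a l * t := by
    intro a t
    simp [dl]
  simp [EuclideanSpace.inner_single_right]
  simp only [e2]
  field_simp
  ring

lemma norm_sq4 (x : E4) : ‖x‖ ^ 2 = x 0 ^ 2 + x 1 ^ 2 + x 2 ^ 2 + x 3 ^ 2 := by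
  rw [EuclideanSpace.norm_sq_eq, Fin.sum_univ_four]
  simp

lemma ricci_Gr (i j : Fin 4) (x : E4) : ricci Gr i j x = 3 * Gr x i j := by
  have h0 := (pos1 x).ne'
  unfold ricci
  simp only [pd_chr]
  simp only [chr_Gr, Gr, Matrix.smul_apply, Matrix.one_apply, smul_eq_mul]
  rw [norm_sq4] at h0 ⊢
  fin_cases i <;> fin_cases j <;> simp [Fin.sum_univ_four, dl] <;> field_simp <;> ring

lemma einstein_Gr (W : Set E4) : IsEinsteinOn Gr 3 W where
  smooth i j := by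
    have : ContDiff ℝ ∞ (fun x : E4 => 4 / (1 + ‖x‖ ^ 2) ^ 2 * dl i j) := by
      refine ContDiff.mul (ContDiff.div contDiff_const ?_ fun x => (pow_pos (pos1 x) 2).ne')
        contDiff_const
      exact (contDiff_const.add (contDiff_norm_sq ℝ)).pow 2
    refine this.contDiffOn.congr fun x _ => ?_
    simp [Gr, dl, Matrix.one_apply]
  posDef x _ := Matrix.PosDef.smul Matrix.PosDef.one (by have := pos1 x; positivity)
  einstein x _ i j := ricci_Gr i j x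

lemma Gr_form (x v w : E4) :
    v.ofLp ⬝ᵥ (Gr x *ᵥ w.ofLp) = 4 / (1 + ‖x‖ ^ 2) ^ 2 * inner ℝ v w := by
  rw [Gr, Matrix.smul_mulVec, Matrix.one_mulVec, dotProduct_smul, smul_eq_mul,
    EuclideanSpace.inner_eq_star_dotProduct, dotProduct_comm]
  simp

end Pool.Agent.H467Z.Orb
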