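import Pool.Agent.H467Z.Orb.Alg
import Pool.Agent.H467Z.Orb.Round

set_option autoImplicit false

namespace Pool.Agent.H467Z.Orb

open Set Metric Quaternion Matrix

/-- The eigenvalues along the circle `trace = 0`, `trace of the square = 6`. -/
noncomputable def lam (b : ℝ) : Fin 3 → ℝ :=
  ![b - Real.sqrt (3 - 3 * b ^ 2), -2 * b, b + Real.sqrt (3 - 3 * b ^ 2)]

/-- The product of the eigenvalues. -/
def dd (b : ℝ) : ℝ := 2 * b * (3 - 4 * b ^ 2)

/-- The extreme value of the determinant. -/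
noncomputable def d0 : ℝ := 74 / 125

lemma d0_pos : 0 < d0 := by norm_num [d0]

lemma dd_top : dd (1 / 10) = d0 := by norm_num [dd, d0]

lemma dd_neg (b : ℝ) : dd (-b) = -dd b := by unfold dd; ring

lemma dd_lt {a b : ℝ} (ha : |a| ≤ 1 / 2) (hb : |b| ≤ 1 / 2) (h : a < b) : dd a < dd b := by
  rw [abs_le] at ha hb
  have e : dd b - dd a = 2 * (b - a) * (3 - 4 * (a ^ 2 + a * b + b ^ 2)) := by unfold dd; ring
  have h1 : 0 < 3 - 4 * (a ^ 2 + a * b + b ^ 2) := by nlinarith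
  have h2 : 0 < 2 * (b - a) * (3 - 4 * (a ^ 2 + a * b + b ^ 2)) := by
    have : 0 < b - a := by linarith
    positivity
  linarith

lemma dd_inj {a b : ℝ} (ha : |a| ≤ 1 / 2) (hb : |b| ≤ 1 / 2) (h : dd a = dd b) : a = b := by
  rcases lt_trichotomy a b with h1 | h1 | h1
  · exact absurd h (dd_lt ha hb h1).ne
  · exact h1
  · exact absurd h (dd_lt hb ha h1).ne'

lemma abs_dd_lt {b : ℝ} (hb : |b| < 1 / 10) : |dd b| < d0 := by
  have h := abs_lt.mp hb
  rw [abs_lt, ← dd_top, ← dd_neg]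
  exact ⟨dd_lt (by norm_num [abs_of_pos]) (by linarith) h.1,
    dd_lt (by linarith) (by norm_num [abs_of_pos]) h.2⟩

lemma abs_dd_le {b : ℝ} (hb : |b| ≤ 1 / 10) : |dd b| ≤ d0 := by
  rcases hb.lt_or_eq with h | h
  · exact (abs_dd_lt h).le
  · rcases (abs_eq (by norm_num)).mp h with h | h
    · rw [h, dd_top, abs_of_pos d0_pos]
    · rw [h, dd_neg, dd_top, abs_neg, abs_of_pos d0_pos]

lemma lt_of_abs_dd_lt {b : ℝ} (hb : |b| ≤ 1 / 2) (h : |dd b| < d0) : |b| < 1 / 10 := by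
  rw [abs_lt, ← dd_top, ← dd_neg] at h
  rw [abs_lt]
  constructor
  · by_contra hc
    rcases (not_lt.mp hc).lt_or_eq with h1 | h1
    · exact absurd (dd_lt hb (by norm_num [abs_of_pos]) h1) (not_lt.mpr h.1.le)
    · rw [h1] at h; exact lt_irrefl _ h.1
  · by_contra hc
    rcases (not_lt.mp hc).lt_or_eq with h1 | h1
    · exact absurd (dd_lt (by norm_num [abs_of_pos]) hb h1) (not_lt.mpr h.2.le)
    · rw [← h1] at h; exact lt_irrefl _ h.2

lemma sqrt_bd {b : ℝ} (hb : |b| ≤ 1 / 10) : Real.sqrt (3 - 3 * b ^ 2) ^ 2 = 3 - 3 * b ^ 2 ∧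
    1 ≤ Real.sqrt (3 - 3 * b ^ 2) ∧ Real.sqrt (3 - 3 * b ^ 2) ≤ 7 / 4 := by
  rw [abs_le] at hb
  refine ⟨Real.sq_sqrt (by nlinarith), Real.one_le_sqrt.mpr (by nlinarith), ?_⟩
  rw [Real.sqrt_le_iff]
  constructor <;> nlinarith

lemma lam_inj {b : ℝ} (hb : |b| ≤ 1 / 10) : Function.Injective (lam b) := by
  obtain ⟨-, h1, -⟩ := sqrt_bd hb
  rw [abs_le] at hb
  intro i j h
  fin_cases i <;> fin_cases j <;> simp [lam] at h ⊢ <;> linarith

/-- The sphere of traceless symmetric matrices. -/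
def Sph (N : M3) : Prop := Nᵀ = N ∧ N.trace = 0 ∧ (N * N).trace = 6

lemma Cj_inv (l : Fin 3 → ℝ) {x : ℍ[ℝ]} (hx : x ≠ 0) : (Cj l x)ᵀ = Cj l x ∧
    (Cj l x).trace = l 0 + l 1 + l 2 ∧ (Cj l x * Cj l x).trace = l 0 ^ 2 + l 1 ^ 2 + l 2 ^ 2 ∧
    (Cj l x).det = l 0 * l 1 * l 2 := by
  have h0 : normSq x ≠ 0 := normSq_ne_zero.mpr hx
  set U : M3 := (normSq x)⁻¹ • R x with hU
  have h1 : Uᵀ * U = 1 := by
    rw [hU, transpose_smul, Matrix.smul_mul, Matrix.mul_smul, T_mul_R, smul_smul, smul_smul]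
    rw [show (normSq x)⁻¹ * (normSq x)⁻¹ * normSq x ^ 2 = 1 by field_simp, one_smul]
  have h2 : Cj l x = U * diagonal l * Uᵀ := by
    rw [hU, transpose_smul, Matrix.smul_mul, Matrix.smul_mul, Matrix.mul_smul, smul_smul, Cj]
    congr 1
    field_simp
  rw [h2]
  refine ⟨?_, ?_, ?_, ?_⟩
  · rw [transpose_mul, transpose_mul, transpose_transpose, diagonal_transpose, Matrix.mul_assoc]
  · rw [trace_mul_cycle, h1, Matrix.one_mul, trace_diagonal, Fin.sum_univ_three]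
  · have : U * diagonal l * Uᵀ * (U * diagonal l * Uᵀ) =
        U * (diagonal l * (Uᵀ * U) * diagonal l) * Uᵀ := by simp only [Matrix.mul_assoc]
    rw [this, h1, Matrix.mul_one, trace_mul_cycle, h1, Matrix.one_mul, diagonal_mul_diagonal,
      trace_diagonal, Fin.sum_univ_three]
    ring
  · have h3 : U.det * U.det = 1 := by
      have := congrArg det h1
      rwa [det_mul, det_transpose, det_one] at this
    rw [det_mul, det_mul, det_transpose, det_diagonal, Fin.prod_univ_three]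
    linear_combination (l 0 * l 1 * l 2) * h3

lemma Cj_lam {b : ℝ} (hb : |b| ≤ 1 / 10) {x : ℍ[ℝ]} (hx : x ≠ 0) :
    Sph (Cj (lam b) x) ∧ (Cj (lam b) x).det = dd b ∧ Cj (lam b) x 2 2 < 2 := by
  obtain ⟨h1, h2, h3, h4⟩ := Cj_inv (lam b) hx
  obtain ⟨s1, s2, s3⟩ := sqrt_bd hb
  refine ⟨⟨h1, ?_, ?_⟩, ?_, ?_⟩
  · rw [h2]; simp [lam]; ring
  · rw [h3]; simp [lam]; linarith
  · rw [h4]; simp [lam, dd]; linear_combination (2 * b) * s1
  · have h0 : 0 < normSq x ^ 2 := pow_pos (lt_of_le_of_ne normSq_nonneg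
      (normSq_ne_zero.mpr hx).symm) 2
    have h5 := congrFun (congrFun (R_mul_T x) 2) 2
    simp only [Matrix.mul_apply, Fin.sum_univ_three, transpose_apply, Matrix.smul_apply,
      one_apply_eq, smul_eq_mul, mul_one] at h5
    rw [Cj_apply, inv_mul_lt_iff₀ h0, ← h5]
    rw [abs_le] at hb
    have l0 : lam b 0 ≤ 19 / 10 := by simp [lam]; linarith
    have l1 : lam b 1 ≤ 19 / 10 := by simp [lam]; linarith
    have l2 : lam b 2 ≤ 19 / 10 := by simp [lam]; linarith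
    rw [← h5] at h0
    nlinarith [mul_self_nonneg (R x 2 0), mul_self_nonneg (R x 2 1), mul_self_nonneg (R x 2 2)]

lemma Sph.entries {N : M3} (h : Sph N) : N 1 0 = N 0 1 ∧ N 2 0 = N 0 2 ∧ N 2 1 = N 1 2 ∧
    N 0 0 + N 1 1 + N 2 2 = 0 ∧
    N 0 0 ^ 2 + N 1 1 ^ 2 + N 2 2 ^ 2 + 2 * (N 0 1 ^ 2 + N 0 2 ^ 2 + N 1 2 ^ 2) = 6 := by
  obtain ⟨h1, h2, h3⟩ := h
  have a1 : N 1 0 = N 0 1 := congrFun (congrFun h1 0) 1
  have a2 : N 2 0 = N 0 2 := congrFun (congrFun h1 0) 2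
  have a3 : N 2 1 = N 1 2 := congrFun (congrFun h1 1) 2
  rw [trace_fin_three] at h2 h3
  simp only [Matrix.mul_apply, Fin.sum_univ_three, a1, a2, a3] at h3
  exact ⟨a1, a2, a3, h2, by linarith⟩

lemma Sph.abs_le {N : M3} (h : Sph N) (i j : Fin 3) : |N i j| ≤ 3 := by
  obtain ⟨a1, a2, a3, -, h5⟩ := h.entries
  rw [← sq_le_sq₀ (abs_nonneg _) (by norm_num), sq_abs]
  fin_cases i <;> fin_cases j <;> simp [a1, a2, a3] <;>
    nlinarith [sq_nonneg (N 0 0), sq_nonneg (N 1 1), sq_nonneg (N 2 2), sq_nonneg (N 0 1),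
      sq_nonneg (N 0 2), sq_nonneg (N 1 2)]

lemma Sph.surj {N : M3} (h : Sph N) (hd : |N.det| < d0) :
    ∃ (b : ℝ) (u : ℍ[ℝ]), |b| < 1 / 10 ∧ normSq u = 1 ∧ N = Cj (lam b) u := by
  obtain ⟨l, u, hl, hu, e⟩ := exists_spectral N h.1
  have hu0 : u ≠ 0 := by
    rintro rfl
    simp at hu
  obtain ⟨-, h2, h3, h4⟩ := Cj_inv l hu0
  rw [← e] at h2 h3 h4
  rw [h.2.1] at h2
  rw [h.2.2] at h3
  have m1 : l 0 ≤ l 1 := hl (by decide)
  have m2 : l 1 ≤ l 2 := hl (by decide)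
  have hs : Real.sqrt (3 - 3 * (-l 1 / 2) ^ 2) = (l 2 - l 0) / 2 := by
    rw [Real.sqrt_eq_iff_mul_self_eq (by nlinarith) (by linarith)]
    have : l 1 = -l 0 - l 2 := by linarith
    rw [this] at h3 ⊢
    linarith
  have hl' : l = lam (-l 1 / 2) := by
    ext i
    fin_cases i
    · simp only [lam, hs]; simp; linarith
    · simp only [lam, hs]; simp; linarith
    · simp only [lam, hs]; simp; linarith
  refine ⟨-l 1 / 2, u, lt_of_abs_dd_lt ?_ ?_, hu, by rw [← hl']; exact e⟩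
  · rw [← sq_le_sq₀ (abs_nonneg _) (by norm_num), sq_abs]
    have : l 2 = -l 0 - l 1 := by linarith
    rw [this] at h3 m2
    nlinarith [mul_nonneg (sub_nonneg.mpr m1) (sub_nonneg.mpr m2)]
  · have : dd (-l 1 / 2) = l 0 * l 1 * l 2 := by
      have e2 : l 2 = -l 0 - l 1 := by linarith
      rw [e2] at h3 ⊢
      unfold dd
      linear_combination (-(l 1) / 2) * h3
    rw [this, ← h4]
    exact hd

/-- Stereographic projection. -/
noncomputable def st (N : M3) : E4 :=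
  (2 - N 2 2)⁻¹ • (!₂[N 0 1, N 0 2, N 1 2, (N 0 0 - N 1 1) / 2] : E4)

/-- Inverse stereographic projection. -/
noncomputable def un (z : E4) : M3 :=
  (4 * ‖z‖ ^ 2 + 3)⁻¹ • !![-(4 * ‖z‖ ^ 2 - 3) + 12 * z 3, 12 * z 0, 12 * z 1;
    12 * z 0, -(4 * ‖z‖ ^ 2 - 3) - 12 * z 3, 12 * z 2;
    12 * z 1, 12 * z 2, 8 * ‖z‖ ^ 2 - 6]

lemma st_un (z : E4) : st (un z) = z := by
  have h : 4 * ‖z‖ ^ 2 + 3 ≠ 0 := by positivity
  have e : (2 - un z 2 2) = 12 / (4 * ‖z‖ ^ 2 + 3) := by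
    simp [un]; field_simp; ring
  ext i
  unfold st
  rw [e]
  fin_cases i <;> simp [un] <;> field_simp <;> ring

lemma sph_un (z : E4) : Sph (un z) := by
  have h : 4 * ‖z‖ ^ 2 + 3 ≠ 0 := by positivity
  refine ⟨?_, ?_, ?_⟩
  · ext i j
    fin_cases i <;> fin_cases j <;> simp [un]
  · rw [trace_fin_three]
    simp [un]
    ring
  · rw [trace_fin_three]
    simp [un, Matrix.mul_apply, Fin.sum_univ_three]
    field_simp
    have := norm_sq4 z
    generalize ‖z‖ = t at this ⊢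
    linear_combination (-288) * this

lemma un_st {N : M3} (h : Sph N) (h2 : N 2 2 < 2) : un (st N) = N := by
  obtain ⟨a1, a2, a3, a4, a5⟩ := h.entries
  have h0 : 2 - N 2 2 ≠ 0 := by linarith
  have e : ‖st N‖ ^ 2 = 3 * (2 + N 2 2) / (4 * (2 - N 2 2)) := by
    rw [norm_sq4]
    simp [st]
    field_simp
    have : N 1 1 = -N 0 0 - N 2 2 := by linarith
    rw [this] at a5 ⊢
    linear_combination 8 * a5
  have e2 : (4 * ‖st N‖ ^ 2 + 3)⁻¹ = (2 - N 2 2) / 12 := by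
    rw [e]
    have : 4 * (3 * (2 + N 2 2) / (4 * (2 - N 2 2))) + 3 = 12 / (2 - N 2 2) := by
      field_simp; ring
    rw [this, inv_div]
  have a6 : N 1 1 = -N 0 0 - N 2 2 := by linarith
  ext i j
  unfold un
  rw [e2, e]
  fin_cases i <;> fin_cases j <;> simp [st, a1, a2, a3, a6] <;> field_simp <;> ring

lemma diff_un (i j : Fin 3) : Differentiable ℝ (fun z : E4 => un z i j) := by
  have h1 : Differentiable ℝ (fun z : E4 => ‖z‖ ^ 2) :=
    (contDiff_norm_sq ℝ (n := 1)).differentiable one_ne_zero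
  have h2 : Differentiable ℝ (fun z : E4 => (4 * ‖z‖ ^ 2 + 3)⁻¹) :=
    Differentiable.inv ((h1.const_mul 4).add_const 3) fun z => by positivity
  have hc : ∀ a : Fin 4, Differentiable ℝ (fun y : E4 => y a) :=
    fun a => (EuclideanSpace.proj a : E4 →L[ℝ] ℝ).differentiable
  have c0 := hc 0
  have c1 := hc 1
  have c2 := hc 2
  have c3 := hc 3
  fin_cases i <;> fin_cases j <;> simp only [un, Matrix.smul_apply, smul_eq_mul] <;>
    refine h2.mul ?_ <;> simp <;> fun_prop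

lemma cont_un : Continuous un :=
  continuous_matrix fun i j => (diff_un i j).continuous

lemma det_un_big (z : E4) (hz : 10 ≤ ‖z‖) : d0 < (un z).det := by
  obtain ⟨a1, a2, a3, a4, a5⟩ := (sph_un z).entries
  have hh : 19 / 10 ≤ un z 2 2 := by
    simp [un]
    rw [le_inv_mul_iff₀ (by positivity)]
    nlinarith
  generalize un z = N at *
  have a6 : N 1 1 = -N 0 0 - N 2 2 := by linarith
  rw [det_fin_three, a1, a2, a3, a6]
  rw [a6] at a5
  set h := N 2 2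
  set y := N 0 0 + h / 2 with hy
  have e0 : N 0 0 = y - h / 2 := by linarith
  rw [e0] at a5 ⊢
  set p := N 0 1
  set q := N 0 2
  set r := N 1 2
  have b1 : y ^ 2 + p ^ 2 + q ^ 2 + r ^ 2 ≤ 3 / 10 := by nlinarith
  have b2 : h ≤ 2 := by nlinarith
  have b3 : |y| ≤ 1 := by rw [abs_le]; constructor <;> nlinarith
  have b4 : |p| ≤ 1 := by rw [abs_le]; constructor <;> nlinarith
  rw [abs_le] at b3 b4
  have e1 : (y - h / 2) * (-(y - h / 2) - h) * h - (y - h / 2) * r * r - p * p * h + p * r * q +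
      q * p * r - q * (-(y - h / 2) - h) * q =
      h ^ 3 / 4 - h * (y ^ 2 + p ^ 2) + (h / 2 - y) * r ^ 2 + (h / 2 + y) * q ^ 2 +
        2 * p * q * r := by ring
  rw [e1]
  have c1 : 17 / 10 ≤ h ^ 3 / 4 := by nlinarith [pow_le_pow_left₀ (by norm_num) hh 3]
  have c2 : h * (y ^ 2 + p ^ 2) ≤ 2 * (y ^ 2 + p ^ 2) := by nlinarith
  have c3 : -(r ^ 2) ≤ (h / 2 - y) * r ^ 2 := by nlinarith [sq_nonneg r]
  have c4 : -(q ^ 2) ≤ (h / 2 + y) * q ^ 2 := by nlinarith [sq_nonneg q]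
  have c5 : -(q ^ 2 + r ^ 2) ≤ 2 * p * q * r := by
    nlinarith [mul_nonneg (sub_nonneg.mpr b4.2) (sq_nonneg (q - r)),
      mul_nonneg (by linarith : 0 ≤ p + 1) (sq_nonneg (q + r))]
  unfold d0
  nlinarith [sq_nonneg q, sq_nonneg r, sq_nonneg y, sq_nonneg p]

end Pool.Agent.H467Z.Orb
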