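import Pool.Agent.H467Z.Orb.Top

set_option autoImplicit false

namespace Pool.Agent.H467Z.Orb

open Set Metric Quaternion Matrix Filter Topology EuclideanGeometry
open scoped ContDiff Manifold

/-- The underlying space of the orbifold: the suspension of the quotient of the 3-sphere. -/
abbrev VV : Type := ↥((fun p : ℝ × ℍ[ℝ] => ph p.1 p.2) '' XX)

/-- Right multiplication by a unit quaternion. -/
noncomputable def rm (u : ℍ[ℝ]) (hu : normSq u = 1) : E4 ≃ₗᵢ[ℝ] E4 :=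
  LinearIsometry.toLinearIsometryEquiv
    { toLinearMap := T.toLinearEquiv.toLinearMap ∘ₗ LinearMap.mulRight ℝ u ∘ₗ
        T.symm.toLinearEquiv.toLinearMap
      norm_map' := fun x => by
        have h : ‖u‖ = 1 := by
          rw [normSq_eq_norm_mul_self] at hu
          nlinarith [norm_nonneg u]
        change ‖T (T.symm x * u)‖ = ‖x‖
        rw [LinearIsometryEquiv.norm_map, norm_mul, h, mul_one, LinearIsometryEquiv.norm_map] }
    rfl

lemma rm_apply (u : ℍ[ℝ]) (hu : normSq u = 1) (x : E4) : rm u hu x = T (T.symm x * u) := rfl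

/-- The quaternion group acting on 4-space. -/
def Gam : Subgroup (E4 ≃ₗᵢ[ℝ] E4) where
  carrier := {γ | ∃ u ∈ Q8, ∀ x, T.symm (γ x) = T.symm x * u}
  one_mem' := ⟨1, Q8_one, fun x => by rw [mul_one]; rfl⟩
  mul_mem' := by
    rintro γ γ' ⟨u, hu, h⟩ ⟨u', hu', h'⟩
    refine ⟨u' * u, Q8_mul hu' hu, fun x => ?_⟩
    change T.symm (γ (γ' x)) = _
    rw [h, h', mul_assoc]
  inv_mem' := by
    rintro γ ⟨u, hu, h⟩
    refine ⟨star u, Q8_star hu, fun x => ?_⟩
    have := h (γ⁻¹ x)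
    rw [show γ (γ⁻¹ x) = x from γ.apply_symm_apply x] at this
    rw [this, mul_assoc, self_mul_star, hu.1]
    simp

lemma Gam_finite : (Gam : Set (E4 ≃ₗᵢ[ℝ] E4)).Finite := by
  refine Set.Finite.of_finite_image (f := fun γ => T.symm (γ (T 1))) (Q8_finite.subset ?_) ?_
  · rintro _ ⟨γ, ⟨u, hu, h⟩, rfl⟩
    simp only [h, LinearIsometryEquiv.symm_apply_apply, one_mul]
    exact hu
  · rintro γ ⟨u, -, h⟩ γ' ⟨u', -, h'⟩ e
    simp only [h, h', LinearIsometryEquiv.symm_apply_apply, one_mul] at e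
    refine LinearIsometryEquiv.ext fun x => T.symm.injective ?_
    rw [h, h', e]

lemma Gam_free : ∀ γ ∈ Gam, ∀ x : E4, x ≠ 0 → γ x = x → γ = 1 := by
  rintro γ ⟨u, -, h⟩ x hx e
  have h1 := h x
  rw [e] at h1
  have h2 : u = 1 := (mul_eq_left₀ (T_ne hx)).mp h1.symm
  refine LinearIsometryEquiv.ext fun y => T.symm.injective ?_
  rw [h, h2, mul_one]
  rfl

lemma Gam_ne : Gam ≠ ⊥ := by
  intro h
  have h1 : rm (-1) Q8_neg_one.1 ∈ Gam := ⟨-1, Q8_neg_one, fun x => by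
    rw [rm_apply, LinearIsometryEquiv.symm_apply_apply]⟩
  rw [h, Subgroup.mem_bot] at h1
  have h2 : rm (-1) Q8_neg_one.1 (T 1) = T 1 := by rw [h1]; rfl
  rw [rm_apply, LinearIsometryEquiv.symm_apply_apply, one_mul] at h2
  have h3 := congrArg (fun q : ℍ[ℝ] => q.re) (T.injective h2)
  norm_num at h3

lemma P_fibre' {s : ℝ} (hs : |s| = 1) {x y : E4} : P s x = P s y ↔ ∃ γ ∈ Gam, γ x = y := by
  rw [P_fibre hs]
  constructor
  · rintro ⟨u, hu, h⟩
    refine ⟨rm u hu.1, ⟨u, hu, fun x => by rw [rm_apply, LinearIsometryEquiv.symm_apply_apply]⟩, ?_⟩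
    rw [rm_apply, ← h, LinearIsometryEquiv.apply_symm_apply]
  · rintro ⟨γ, ⟨u, hu, h⟩, rfl⟩
    exact ⟨u, hu, h x⟩

/-- The group as a set of maps. -/
def GamS : Set (E4 → E4) := (fun γ : E4 ≃ₗᵢ[ℝ] E4 => (γ : E4 → E4)) '' Gam

lemma GamS_group : IsFreeOrthGroup GamS where
  finite := Gam_finite.image _
  linear := by
    rintro _ ⟨γ, -, rfl⟩
    exact ⟨γ.map_add, γ.map_smul⟩
  norm_eq := by
    rintro _ ⟨γ, -, rfl⟩
    exact γ.norm_map
  one := ⟨1, Gam.one_mem, rfl⟩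
  mul := by
    rintro _ ⟨γ, h, rfl⟩ _ ⟨γ', h', rfl⟩
    exact ⟨γ * γ', Gam.mul_mem h h', rfl⟩
  inv := by
    rintro _ ⟨γ, h, rfl⟩
    exact ⟨_, ⟨γ⁻¹, Gam.inv_mem h, rfl⟩, funext γ.symm_apply_apply⟩
  free := by
    rintro _ ⟨γ, h, rfl⟩ x hx e
    rw [Gam_free γ h x hx e]
    rfl

lemma GamS_ne : GamS ≠ {id} := by
  intro h
  apply Gam_ne
  rw [eq_bot_iff]
  intro γ hγ
  have : (γ : E4 → E4) ∈ GamS := ⟨γ, hγ, rfl⟩
  rw [h, mem_singleton_iff] at this
  exact LinearIsometryEquiv.ext (congrFun this)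

/-- The two charts. -/
noncomputable def chartS (s : ℝ) (hs : |s| = 1) : OrbChart VV 3 where
  r := 2
  r_pos := two_pos
  Γ := GamS
  group := GamS_group
  φ x := ⟨P s x, P_mem hs x⟩
  cont := ((cont_P hs).subtype_mk _).continuousOn
  fibre x _ y _ := by
    rw [Subtype.ext_iff]
    refine (P_fibre' hs).trans ⟨?_, ?_⟩
    · rintro ⟨γ, h, e⟩
      exact ⟨γ, ⟨γ, h, rfl⟩, e⟩
    · rintro ⟨_, ⟨γ, h, rfl⟩, e⟩
      exact ⟨γ, h, e⟩
  isOpen_image W _ hW := by
    rw [← isClosed_compl_iff]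
    convert (closed_compl hs W hW).preimage
      (continuous_subtype_val (p := (· ∈ (fun p : ℝ × ℍ[ℝ] => ph p.1 p.2) '' XX))) using 1
    ext v
    simp only [mem_compl_iff, mem_image, mem_preimage, Set.mem_sdiff, Subtype.ext_iff]
    exact ⟨fun h => ⟨v.2, h⟩, fun h => h.2⟩
  G := Gr
  einstein := einstein_Gr _

/-- The signs of the two charts. -/
def sg (a : Bool) : ℝ := if a then 1 else -1

lemma abs_sg (a : Bool) : |sg a| = 1 := by cases a <;> simp [sg]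

/-- The two poles. -/
def poles : Set VV := {v | v.1 = (d0, 0) ∨ v.1 = (-d0, 0)}

lemma ph_pole {b : ℝ} (hb : |b| ≤ 1 / 10) (x : ℍ[ℝ]) :
    (ph b x = (d0, 0) ∨ ph b x = (-d0, 0)) ↔ |b| = 1 / 10 := by
  constructor
  · intro h
    by_contra hc
    have h1 := abs_lt.mp (abs_dd_lt (lt_of_le_of_ne hb hc))
    rcases h with h | h
    · exact h1.2.ne (congrArg Prod.fst h)
    · exact h1.1.ne' (congrArg Prod.fst h)
  · intro h
    rcases (abs_eq (by norm_num)).mp h with h | h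
    · rw [h]; exact Or.inl (ph_top _)
    · rw [h]; exact Or.inr (ph_bot _)

lemma P_pole {s : ℝ} (hs : |s| = 1) (x : E4) :
    (P s x = (d0, 0) ∨ P s x = (-d0, 0)) ↔ x = 0 := by
  rw [P, ph_pole (abs_bb_le hs x)]
  constructor
  · intro h
    by_contra hx
    exact (abs_bb_lt hs hx).ne h
  · rintro rfl
    simp [bb_zero, abs_mul, hs]

lemma inv_eq (x : E4) : inversion (0 : E4) 1 x = (‖x‖ ^ 2)⁻¹ • x := by
  simp [inversion]

lemma norm_inv' (x : E4) : ‖inversion (0 : E4) 1 x‖ = ‖x‖⁻¹ := by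
  have := dist_inversion_center (0 : E4) x 1
  simpa using this

lemma P_inv (s : ℝ) {x : E4} (hx : x ≠ 0) : P (-s) (inversion (0 : E4) 1 x) = P s x := by
  have hn : ‖x‖ ≠ 0 := norm_ne_zero_iff.mpr hx
  have e : -s * bb (‖inversion (0 : E4) 1 x‖ ^ 2) = s * bb (‖x‖ ^ 2) := by
    rw [norm_inv']
    unfold bb
    field_simp
    ring
  unfold P ph
  rw [e, inv_eq, map_smul, Cj_smul _ _ _ (by positivity)]

lemma compat_same {s : ℝ} (hs : |s| = 1) {x y : E4} (hx : x ∈ ball (0 : E4) 2)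
    (h : P s x = P s y) :
    ∃ (O : Set E4) (τ : E4 → E4), IsOpen O ∧ x ∈ O ∧ O ⊆ ball 0 2 ∧ τ x = y ∧
      ContDiffOn ℝ ∞ τ O ∧ ∀ z ∈ O, τ z ∈ ball (0 : E4) 2 ∧ P s (τ z) = P s z ∧ ∀ v w : E4,
          (fderiv ℝ τ z v).ofLp ⬝ᵥ (Gr (τ z) *ᵥ (fderiv ℝ τ z w).ofLp) =
            v.ofLp ⬝ᵥ (Gr z *ᵥ w.ofLp) := by
  obtain ⟨γ, hγ, e⟩ := (P_fibre' hs).mp h
  refine ⟨ball 0 2, γ, isOpen_ball, hx, subset_rfl, e, γ.contDiff.contDiffOn, fun z hz => ⟨?_,
    ((P_fibre' hs).mpr ⟨γ, hγ, rfl⟩).symm, fun v w => ?_⟩⟩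
  · rw [mem_ball_zero_iff] at hz ⊢
    rwa [γ.norm_map]
  · rw [Gr_form, Gr_form, γ.norm_map, (γ.hasFDerivAt (x := z)).fderiv]
    congr 1
    exact γ.inner_map_map v w

lemma compat_opp {s : ℝ} (hs : |s| = 1) {x y : E4} (hx : x ∈ ball (0 : E4) 2)
    (hy : y ∈ ball (0 : E4) 2) (h : P s x = P (-s) y) (hx0 : x ≠ 0) :
    ∃ (O : Set E4) (τ : E4 → E4), IsOpen O ∧ x ∈ O ∧ O ⊆ ball 0 2 ∧ τ x = y ∧
      ContDiffOn ℝ ∞ τ O ∧ ∀ z ∈ O, τ z ∈ ball (0 : E4) 2 ∧ P (-s) (τ z) = P s z ∧ ∀ v w : E4,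
          (fderiv ℝ τ z v).ofLp ⬝ᵥ (Gr (τ z) *ᵥ (fderiv ℝ τ z w).ofLp) =
            v.ofLp ⬝ᵥ (Gr z *ᵥ w.ofLp) := by
  have hs' : |-s| = 1 := by rwa [abs_neg]
  have hy0 : y ≠ 0 := by
    rintro rfl
    exact hx0 ((P_pole hs x).mp (h ▸ (P_pole hs' 0).mpr rfl))
  have h1 := P_inv (-s) hy0
  rw [neg_neg, ← h] at h1
  obtain ⟨γ, hγ, e⟩ := (P_fibre' hs).mp h1.symm
  have hne : ∀ z : E4, 1 / 2 < ‖z‖ → γ z ≠ 0 := by
    intro z hz h0
    rw [← γ.norm_map, h0, norm_zero] at hz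
    linarith
  refine ⟨ball 0 2 ∩ {z | 1 / 2 < ‖z‖}, fun z => inversion (0 : E4) 1 (γ z),
    isOpen_ball.inter (isOpen_lt continuous_const continuous_norm), ⟨hx, ?_⟩, inter_subset_left,
    ?_, ?_, fun z hz => ⟨?_, ?_, fun v w => ?_⟩⟩
  · have h2 : ‖x‖ = ‖y‖⁻¹ := by rw [← γ.norm_map, e, norm_inv']
    rw [mem_ball_zero_iff] at hy
    change 1 / 2 < ‖x‖
    rw [h2, one_div]
    exact inv_strictAnti₀ (norm_pos_iff.mpr hy0) hy
  · simp only [e]
    exact inversion_inversion _ one_ne_zero _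
  · exact ContDiffOn.inversion contDiffOn_const contDiffOn_const γ.contDiff.contDiffOn
      fun z hz => hne z hz.2
  · rw [mem_ball_zero_iff, norm_inv', γ.norm_map]
    have : 1 / 2 < ‖z‖ := hz.2
    rw [inv_lt_comm₀ (by linarith) two_pos]
    linarith
  · rw [P_inv s (hne z hz.2)]
    exact ((P_fibre' hs).mpr ⟨γ, hγ, rfl⟩).symm
  · have h2 := (hasFDerivAt_inversion (c := (0 : E4)) (R := 1) (hne z hz.2)).comp z
      (γ.hasFDerivAt (x := z))
    have h3 : fderiv ℝ (fun z => inversion (0 : E4) 1 (γ z)) z = _ := h2.fderiv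
    have hz0 : ‖z‖ ≠ 0 := by
      have : 1 / 2 < ‖z‖ := hz.2
      linarith
    rw [Gr_form, Gr_form, h3, norm_inv', γ.norm_map]
    simp only [ContinuousLinearMap.comp_apply, _root_.smul_apply, inner_smul_left,
      inner_smul_right, dist_zero_right, γ.norm_map]
    simp
    field_simp
    ring

/-- The round orbifold. -/
noncomputable def orb : EinsteinOrbifold VV where
  compact := isCompact_iff_compactSpace.mp (XX_compact.image_of_continuousOn cont_ph)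
  t2 := inferInstance
  c := 3
  ι := Bool
  chart a := chartS (sg a) (abs_sg a)
  cover := by
    rintro ⟨_, p, hp, rfl⟩
    have aux : ∀ a, sg a * p.1 ≤ 0 → ∃ x ∈ ball (0 : E4) 2, P (sg a) x = ph p.1 p.2 := by
      intro a ha
      refine ⟨_, ?_, P_polar (abs_sg a) hp (by linarith)⟩
      have h1 : ‖p.2‖ = 1 := mem_sphere_zero_iff_norm.mp hp.2
      rw [mem_ball_zero_iff, LinearIsometryEquiv.norm_map, norm_smul, h1, mul_one,
        Real.norm_eq_abs, rho, abs_of_nonneg (Real.sqrt_nonneg _), Real.sqrt_lt' two_pos,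
        div_lt_iff₀ (by linarith)]
      linarith
    rcases le_total p.1 0 with h | h
    · obtain ⟨x, h1, h2⟩ := aux true (by simpa [sg] using h)
      exact ⟨true, x, h1, Subtype.ext h2⟩
    · obtain ⟨x, h1, h2⟩ := aux false (by simpa [sg] using h)
      exact ⟨false, x, h1, Subtype.ext h2⟩
  sing := poles
  sing_finite := ((Set.toFinite {((d0, 0) : ℝ × M3), (-d0, 0)}).preimage
    Subtype.val_injective.injOn)
  mem_sing a x _ := ⟨fun h => ⟨(P_pole (abs_sg a) x).mp h, GamS_ne⟩,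
    fun h => (P_pole (abs_sg a) x).mpr h.1⟩
  compat a b x hx y hy h hs := by
    have h' : P (sg a) x = P (sg b) y := congrArg Subtype.val h
    have hx0 : x ≠ 0 := fun e => hs ((P_pole (abs_sg a) x).mpr e)
    rcases eq_or_ne a b with rfl | hab
    · obtain ⟨O, τ, h1, h2, h3, h4, h5, h6⟩ := compat_same (abs_sg a) hx h'
      exact ⟨O, τ, h1, h2, h3, h4, h5, fun z hz =>
        ⟨(h6 z hz).1, Subtype.ext (h6 z hz).2.1, (h6 z hz).2.2⟩⟩
    · have e : sg b = -sg a := by cases a <;> cases b <;> simp_all [sg]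
      rw [e] at h'
      obtain ⟨O, τ, h1, h2, h3, h4, h5, h6⟩ := compat_opp (abs_sg a) hx hy h' hx0
      refine ⟨O, τ, h1, h2, h3, h4, h5, fun z hz =>
        ⟨(h6 z hz).1, Subtype.ext ?_, (h6 z hz).2.2⟩⟩
      change P (sg b) (τ z) = P (sg a) z
      rw [e]
      exact (h6 z hz).2.1

theorem exists_resolution (M : Type*) [TopologicalSpace M] [T2Space M] [CompactSpace M]
    [ConnectedSpace M] [ChartedSpace E4 M] [IsManifold (𝓡 4) ∞ M] :
    ∃ π : M → VV, IsResolution orb π := by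
  classical
  obtain ⟨κ, κi, O, hO, hκi, h1, h2, hκ, hb⟩ := exists_kappa M
  have hsub : closedBall (0 : E4) 10 ⊆ ball 0 20 := closedBall_subset_ball (by norm_num)
  set K : Set M := κ '' closedBall 0 10 with hK
  have hKc : IsCompact K :=
    (isCompact_closedBall _ _).image_of_continuousOn (hκ.continuousOn.mono hsub)
  have hKO : K ⊆ O := by
    rintro _ ⟨z, hz, rfl⟩
    exact (h1 z (hsub hz)).1
  let p : M → ℝ × M3 := fun m => if m ∈ K then pi0 (κi m) else (d0, 0)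
  have hpO : ∀ m ∈ O, p m = pi0 (κi m) := by
    intro m hm
    by_cases hmK : m ∈ K
    · simp only [p, if_pos hmK]
    · simp only [p, if_neg hmK]
      refine (pi0_top (det_un_big _ ?_).le).symm
      by_contra hc
      exact hmK ⟨κi m, mem_closedBall_zero_iff.mpr (not_le.mp hc).le, (h2 m hm).2⟩
  have hpc : Continuous p := by
    rw [continuous_iff_continuousAt]
    intro m
    by_cases hm : m ∈ O
    · have := cont_pi0.continuousAt.comp (hκi.continuousAt (hO.mem_nhds hm))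
      refine this.congr ?_
      filter_upwards [hO.mem_nhds hm] with y hy
      exact (hpO y hy).symm
    · refine (continuousAt_const (y := ((d0, 0) : ℝ × M3))).congr ?_
      filter_upwards [hKc.isClosed.isOpen_compl.mem_nhds (fun h => hm (hKO h))] with y hy
      simp only [p, if_neg hy]
  let g : ℝ × ℍ[ℝ] → M := fun q => κ (st (Cj (lam q.1) q.2))
  have hgb : ∀ (b : ℝ) (x : ℍ[ℝ]), |b| ≤ 1 / 10 → x ≠ 0 →
      st (Cj (lam b) x) ∈ ball (0 : E4) 20 := fun b x hb hx =>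
    mem_ball_zero_iff.mpr ((norm_st_lt hb hx).trans (by norm_num))
  have hpg : ∀ (b : ℝ) (x : ℍ[ℝ]), |b| ≤ 1 / 10 → x ≠ 0 → p (g (b, x)) = ph b x := by
    intro b x hb hx
    have := h1 _ (hgb b x hb hx)
    rw [hpO _ this.1, this.2, pi0_st hb hx]
  have hpg' : ∀ q ∈ XX, p (g q) = ph q.1 q.2 := fun q hq =>
    hpg q.1 q.2 (mem_XX.mp hq).1 (ne_of_normSq (mem_XX.mp hq).2)
  have hgc : ContinuousOn g XX := hκ.continuousOn.comp cont_stCj fun q hq =>
    hgb q.1 q.2 (mem_XX.mp hq).1 (ne_of_normSq (mem_XX.mp hq).2)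
  have hcase : ∀ m, p m = (d0, 0) ∨ p m = (-d0, 0) ∨ ∃ q ∈ XX, |q.1| < 1 / 10 ∧ g q = m := by
    intro m
    by_cases hm : m ∈ K
    · have hm' := hKO hm
      rw [hpO m hm']
      rcases pi0_cases (κi m) with h | h | ⟨b, u, a1, a2, a3⟩
      · exact Or.inr (Or.inl h.2)
      · exact Or.inl h.2
      · refine Or.inr (Or.inr ⟨(b, u), mem_XX.mpr ⟨a1.le, a2⟩, a1, ?_⟩)
        simp only [g]
        rw [← a3, (h2 m hm').2]
    · exact Or.inl (by simp only [p, if_neg hm])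
  have hX1 : ∀ b : ℝ, |b| = 1 / 10 → (b, (1 : ℍ[ℝ])) ∈ XX := fun b hb =>
    mem_XX.mpr ⟨hb.le, by simp⟩
  have hmem : ∀ m, p m ∈ (fun q : ℝ × ℍ[ℝ] => ph q.1 q.2) '' XX := by
    intro m
    rcases hcase m with h | h | ⟨q, hq, -, rfl⟩
    · exact ⟨_, hX1 (1 / 10) (by norm_num [abs_of_pos]), by rw [h]; exact ph_top _⟩
    · exact ⟨_, hX1 (-(1 / 10)) (by norm_num [abs_of_pos]), by rw [h]; exact ph_bot _⟩
    · exact ⟨q, hq, (hpg' q hq).symm⟩
  have hconn : ∀ (b : ℝ) (v v' : ℝ × M3), |b| = 1 / 10 → (∀ x, ph b x = v) → v ≠ v' →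
      (∀ m, p m = v ∨ p m = v' ∨ m ∈ g '' XX) → IsConnected (p ⁻¹' {v}) := by
    intro b v v' hb1 hv hne hc
    have hS : ({b} ×ˢ sphere (0 : ℍ[ℝ]) 1) ⊆ XX := by
      rintro q ⟨a1, a2⟩
      refine ⟨?_, a2⟩
      rw [a1]
      exact abs_le.mp hb1.le
    refine conn (D' := p ⁻¹' {v'}) (C := g '' XX) (S := g '' ({b} ×ˢ sphere (0 : ℍ[ℝ]) 1))
      (isClosed_singleton.preimage hpc) (isClosed_singleton.preimage hpc)
      (XX_compact.image_of_continuousOn hgc).isClosed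
      (Disjoint.preimage p (disjoint_singleton.mpr hne)) hc ?_ ?_ ?_
    · refine IsConnected.image (isConnected_singleton.prod (isConnected_sphere ?_ _ zero_le_one))
        g (hgc.mono hS)
      rw [Quaternion.rank_eq_four]
      norm_num
    · rintro _ ⟨q, hq, rfl⟩
      rw [mem_preimage, hpg' q (hS hq), hq.1]
      exact hv _
    · rintro _ ⟨⟨q, hq, rfl⟩, h⟩
      rw [mem_preimage, hpg' q hq, mem_singleton_iff, ← hv 1] at h
      exact ⟨q, ⟨(ph_inj (mem_XX.mp hq).1 hb1.le h).1, hq.2⟩, rfl⟩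
  have hne : ((d0, 0) : ℝ × M3) ≠ (-d0, 0) := by
    intro h
    have h1 : d0 = -d0 := congrArg Prod.fst h
    have := d0_pos
    linarith
  refine ⟨fun m => ⟨p m, hmem m⟩, hpc.subtype_mk _, ?_, ?_, ?_, ?_⟩
  · rintro ⟨_, q, hq, rfl⟩
    exact ⟨g q, Subtype.ext (hpg' q hq)⟩
  · intro q hq
    have e : (fun m => (⟨p m, hmem m⟩ : VV)) ⁻¹' {q} = p ⁻¹' {q.1} := by
      ext m
      simp only [mem_preimage, mem_singleton_iff, Subtype.ext_iff]
    rw [e]
    refine ⟨(isClosed_singleton.preimage hpc).isCompact, ?_⟩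
    rcases hq with hq | hq
    · rw [hq]
      refine hconn (1 / 10) _ _ (by norm_num [abs_of_pos]) ph_top hne fun m => ?_
      rcases hcase m with h | h | ⟨q, hq, -, h⟩
      exacts [Or.inl h, Or.inr (Or.inl h), Or.inr (Or.inr ⟨q, hq, h⟩)]
    · rw [hq]
      refine hconn (-(1 / 10)) _ _ (by norm_num [abs_of_pos]) ph_bot hne.symm fun m => ?_
      rcases hcase m with h | h | ⟨q, hq, -, h⟩
      exacts [Or.inr (Or.inl h), Or.inl h, Or.inr (Or.inr ⟨q, hq, h⟩)]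
  · intro m hm m' hm' h
    have h' : p m = p m' := congrArg Subtype.val h
    rcases hcase m with a | a | ⟨q, hq, a1, rfl⟩
    · exact absurd (Or.inl a) hm
    · exact absurd (Or.inr a) hm
    rcases hcase m' with a | a | ⟨q', hq', a2, rfl⟩
    · exact absurd (Or.inl a) hm'
    · exact absurd (Or.inr a) hm'
    rw [hpg' q hq, hpg' q' hq'] at h'
    obtain ⟨b1, b2⟩ := ph_inj a1.le a2.le h'
    simp only [g]
    rw [b2 a1, b1]
  · intro a
    have hs := abs_sg a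
    have hx0 : ∀ x ∈ B4 (orb.chart a).r \ (orb.chart a).φ ⁻¹' orb.sing, x ≠ 0 :=
      fun x hx e => hx.2 ((P_pole hs x).mpr e)
    have hFb : ∀ x : E4, x ≠ 0 → F (sg a) x ∈ ball (0 : E4) 20 := fun x hx =>
      hgb _ _ (abs_bb_le hs x) (T_ne hx)
    refine ⟨κ ∘ F (sg a), hκ.comp (fun x hx =>
      (contDiffAt_F hs (hx0 x hx)).contMDiffAt.contMDiffWithinAt) fun x hx => hFb x (hx0 x hx),
      fun x hx => ⟨Subtype.ext (hpg _ _ (abs_bb_le hs x) (T_ne (hx0 x hx))), ?_⟩⟩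
    have hx' := hx0 x hx
    have m1 := (hκ.contMDiffAt (isOpen_ball.mem_nhds (hFb x hx'))).mdifferentiableAt (by simp)
    have m2 := ((contDiffAt_F hs hx').differentiableAt (by simp)).mdifferentiableAt
    have m3 : Function.Bijective (mfderiv (𝓡 4) (𝓡 4) (κ ∘ F (sg a)) x) := by
      rw [mfderiv_comp x m1 m2, mfderiv_eq_fderiv]
      exact (hb _ (hFb x hx')).comp (fderiv_F_bij hs hx')
    rw [(m1.comp x m2).mfderiv] at m3
    simp only [writtenInExtChartAt, mfld_simps, fderivWithin_univ] at m3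
    exact m3

end Pool.Agent.H467Z.Orb
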