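import Pool.Agent.H467Z.Orb.Der

set_option autoImplicit false

namespace Pool.Agent.H467Z.Orb

open Set Metric Quaternion Matrix Filter Topology
open scoped ContDiff Manifold

/-- The collapsing map on 4-space. -/
noncomputable def pi0 (z : E4) : ℝ × M3 :=
  (max (-d0) (min d0 (un z).det), max (d0 ^ 2 - (un z).det ^ 2) 0 • un z)

/-- Polar parametrisation of the orbifold. -/
noncomputable def ph (b : ℝ) (x : ℍ[ℝ]) : ℝ × M3 := (dd b, (d0 ^ 2 - dd b ^ 2) • Cj (lam b) x)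

lemma cont_pi0 : Continuous pi0 := by
  have h := cont_un.matrix_det
  exact (continuous_const.max (continuous_const.min h)).prodMk
    (((continuous_const.sub (h.pow 2)).max continuous_const).smul cont_un)

lemma pi0_mid {z : E4} (h : |(un z).det| ≤ d0) :
    pi0 z = ((un z).det, (d0 ^ 2 - (un z).det ^ 2) • un z) := by
  have h2 : (un z).det ^ 2 ≤ d0 ^ 2 := by
    rw [← sq_abs]
    exact pow_le_pow_left₀ (abs_nonneg _) h 2
  rw [abs_le] at h
  rw [pi0, min_eq_right h.2, max_eq_right h.1, max_eq_left (by linarith)]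

lemma pi0_top {z : E4} (h : d0 ≤ (un z).det) : pi0 z = (d0, 0) := by
  have := d0_pos
  rw [pi0, min_eq_left h, max_eq_right (by linarith), max_eq_right (by nlinarith), zero_smul]

lemma pi0_bot {z : E4} (h : (un z).det ≤ -d0) : pi0 z = (-d0, 0) := by
  have := d0_pos
  rw [pi0, min_eq_right (by linarith), max_eq_left h, max_eq_right (by nlinarith), zero_smul]

lemma un_st_Cj {b : ℝ} (hb : |b| ≤ 1 / 10) {x : ℍ[ℝ]} (hx : x ≠ 0) :
    un (st (Cj (lam b) x)) = Cj (lam b) x := un_st (Cj_lam hb hx).1 (Cj_lam hb hx).2.2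

lemma pi0_st {b : ℝ} (hb : |b| ≤ 1 / 10) {x : ℍ[ℝ]} (hx : x ≠ 0) :
    pi0 (st (Cj (lam b) x)) = ph b x := by
  have h := (Cj_lam hb hx).2.1
  rw [pi0_mid (by rw [un_st_Cj hb hx, h]; exact abs_dd_le hb), un_st_Cj hb hx, h, ph]

lemma norm_st_lt {b : ℝ} (hb : |b| ≤ 1 / 10) {x : ℍ[ℝ]} (hx : x ≠ 0) :
    ‖st (Cj (lam b) x)‖ < 10 := by
  by_contra hc
  have := det_un_big _ (not_lt.mp hc)
  rw [un_st_Cj hb hx, (Cj_lam hb hx).2.1] at this
  exact absurd (abs_le.mp (abs_dd_le hb)).2 (not_le.mpr this)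

lemma ph_top (x : ℍ[ℝ]) : ph (1 / 10) x = (d0, 0) := by rw [ph, dd_top, sub_self, zero_smul]

lemma ph_bot (x : ℍ[ℝ]) : ph (-(1 / 10)) x = (-d0, 0) := by
  rw [ph, dd_neg, dd_top, neg_sq, sub_self, zero_smul]

lemma ph_edge {b : ℝ} (hb : |b| = 1 / 10) (x y : ℍ[ℝ]) : ph b x = ph b y := by
  rcases (abs_eq (by norm_num)).mp hb with h | h
  · rw [h, ph_top, ph_top]
  · rw [h, ph_bot, ph_bot]

lemma ph_inj {b b' : ℝ} (hb : |b| ≤ 1 / 10) (hb' : |b'| ≤ 1 / 10) {x y : ℍ[ℝ]}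
    (h : ph b x = ph b' y) : b = b' ∧ (|b| < 1 / 10 → Cj (lam b) x = Cj (lam b) y) := by
  have h1 : b = b' := dd_inj (by linarith) (by linarith) (congrArg Prod.fst h)
  subst h1
  refine ⟨rfl, fun hlt => ?_⟩
  have h2 : dd b ^ 2 < d0 ^ 2 := by
    rw [← sq_abs]
    exact pow_lt_pow_left₀ (abs_dd_lt hlt) (abs_nonneg _) two_ne_zero
  exact smul_right_injective _ (by linarith : d0 ^ 2 - dd b ^ 2 ≠ 0) (congrArg Prod.snd h)

lemma pi0_cases (z : E4) : ((un z).det ≤ -d0 ∧ pi0 z = (-d0, 0)) ∨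
    (d0 ≤ (un z).det ∧ pi0 z = (d0, 0)) ∨
    ∃ (b : ℝ) (u : ℍ[ℝ]), |b| < 1 / 10 ∧ normSq u = 1 ∧ z = st (Cj (lam b) u) := by
  rcases le_or_gt (un z).det (-d0) with h | h
  · exact Or.inl ⟨h, pi0_bot h⟩
  rcases le_or_gt d0 (un z).det with h' | h'
  · exact Or.inr (Or.inl ⟨h', pi0_top h'⟩)
  obtain ⟨b, u, h1, h2, h3⟩ := (sph_un z).surj (abs_lt.mpr ⟨h, h'⟩)
  exact Or.inr (Or.inr ⟨b, u, h1, h2, by rw [← h3, st_un]⟩)

/-- The compact parameter domain. -/
def XX : Set (ℝ × ℍ[ℝ]) := Icc (-(1 / 10)) (1 / 10) ×ˢ sphere 0 1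

lemma XX_compact : IsCompact XX := isCompact_Icc.prod (isCompact_sphere _ _)

lemma mem_XX {p : ℝ × ℍ[ℝ]} : p ∈ XX ↔ |p.1| ≤ 1 / 10 ∧ normSq p.2 = 1 := by
  rw [XX, mem_prod, abs_le, mem_Icc, mem_sphere_zero_iff_norm, normSq_eq_norm_mul_self]
  refine and_congr_right fun _ => ⟨fun h => by rw [h, one_mul], fun h => ?_⟩
  nlinarith [norm_nonneg p.2]

lemma ne_of_normSq {u : ℍ[ℝ]} (h : normSq u = 1) : u ≠ 0 := by
  rintro rfl
  simp at h

lemma cont_R : Continuous R := by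
  refine continuous_matrix fun i j => ?_
  have := ((contDiff_R i j).continuous).comp T.continuous
  refine this.congr fun x => ?_
  simp only [Function.comp, LinearIsometryEquiv.symm_apply_apply]

lemma cont_Cj : ContinuousOn (fun p : ℝ × ℍ[ℝ] => Cj (lam p.1) p.2) XX := by
  have h1 : Continuous fun p : ℝ × ℍ[ℝ] => R p.2 * diagonal (lam p.1) * (R p.2)ᵀ := by
    have h2 : Continuous fun p : ℝ × ℍ[ℝ] => lam p.1 := by
      refine continuous_pi fun k => ?_
      fin_cases k <;> simp [lam] <;> fun_prop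
    exact ((cont_R.comp continuous_snd).matrix_mul h2.matrix_diagonal).matrix_mul
      (cont_R.comp continuous_snd).matrix_transpose
  refine h1.continuousOn.congr fun p hp => ?_
  simp [Cj, (mem_XX.mp hp).2]

lemma cont_ph : ContinuousOn (fun p : ℝ × ℍ[ℝ] => ph p.1 p.2) XX := by
  have h : Continuous fun p : ℝ × ℍ[ℝ] => dd p.1 := by unfold dd; fun_prop
  exact h.continuousOn.prodMk ((continuous_const.sub (h.pow 2)).continuousOn.smul cont_Cj)

lemma cont_stCj : ContinuousOn (fun p : ℝ × ℍ[ℝ] => st (Cj (lam p.1) p.2)) XX := by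
  have h : ∀ i j, ContinuousOn (fun p : ℝ × ℍ[ℝ] => Cj (lam p.1) p.2 i j) XX := fun i j =>
    (continuous_apply j).comp_continuousOn ((continuous_apply i).comp_continuousOn cont_Cj)
  unfold st
  refine ContinuousOn.smul (ContinuousOn.inv₀ (continuousOn_const.sub (h 2 2)) fun p hp => ?_) ?_
  · have := (Cj_lam (mem_XX.mp hp).1 (ne_of_normSq (mem_XX.mp hp).2)).2.2
    change 2 - Cj (lam p.1) p.2 2 2 ≠ 0
    linarith
  · refine (PiLp.continuous_toLp 2 _).comp_continuousOn (continuousOn_pi.mpr fun i => ?_)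
    fin_cases i
    · exact h 0 1
    · exact h 0 2
    · exact h 1 2
    · exact ((h 0 0).sub (h 1 1)).div_const 2

/-- The two uniformising maps, for `s = 1` and `s = -1`. -/
noncomputable def P (s : ℝ) (x : E4) : ℝ × M3 := ph (s * bb (‖x‖ ^ 2)) (T.symm x)

lemma P_eq {s : ℝ} (hs : |s| = 1) {x : E4} (hx : x ≠ 0) : P s x = pi0 (F s x) :=
  (pi0_st (abs_bb_le hs x) (T_ne hx)).symm

lemma bb_zero : bb 0 = -(1 / 10) := by norm_num [bb]

lemma cont_P {s : ℝ} (hs : |s| = 1) : Continuous (P s) := by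
  rw [continuous_iff_continuousAt]
  intro x
  rcases eq_or_ne x 0 with rfl | hx
  · have hb := (contDiff_bb s).continuous
    have h : Continuous fun y : E4 => dd (s * bb (‖y‖ ^ 2)) := by unfold dd; fun_prop
    refine h.continuousAt.prodMk ?_
    have h0 : d0 ^ 2 - dd (s * bb (‖(0 : E4)‖ ^ 2)) ^ 2 = 0 := by
      rcases (abs_eq zero_le_one).mp hs with rfl | rfl
      · simp only [norm_zero, ne_eq, OfNat.ofNat_ne_zero, not_false_eq_true, zero_pow, bb_zero,
          one_mul, dd_neg, dd_top, neg_sq, sub_self]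
      · simp only [norm_zero, ne_eq, OfNat.ofNat_ne_zero, not_false_eq_true, zero_pow, bb_zero,
          neg_mul, one_mul, neg_neg, dd_top, sub_self]
    have h1 : Tendsto (fun y : E4 => d0 ^ 2 - dd (s * bb (‖y‖ ^ 2)) ^ 2) (𝓝 0) (𝓝 0) := by
      have h2 : Continuous fun y : E4 => d0 ^ 2 - dd (s * bb (‖y‖ ^ 2)) ^ 2 :=
        continuous_const.sub (h.pow 2)
      have := h2.tendsto 0
      rwa [h0] at this
    unfold ContinuousAt
    beta_reduce
    rw [h0, zero_smul]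
    refine tendsto_pi_nhds.mpr fun i => tendsto_pi_nhds.mpr fun j => ?_
    simp only [Matrix.smul_apply, smul_eq_mul, Matrix.zero_apply]
    refine h1.zero_mul_isBoundedUnder_le ⟨3, ?_⟩
    rw [eventually_map]
    refine Eventually.of_forall fun y => ?_
    rcases eq_or_ne y 0 with rfl | hy
    · simp [Cj, -Quaternion.linearIsometryEquivTuple_symm_apply]
    · exact (Bm_prop hs hy).1.abs_le i j
  · have := cont_pi0.continuousAt.comp (contDiffAt_F hs hx).continuousAt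
    refine this.congr ?_
    filter_upwards [isOpen_ne.mem_nhds hx] with y hy
    exact (P_eq hs hy).symm

lemma P_mem {s : ℝ} (hs : |s| = 1) (x : E4) : ∃ p ∈ XX, ph p.1 p.2 = P s x := by
  rcases eq_or_ne x 0 with rfl | hx
  · refine ⟨(s * bb (‖(0 : E4)‖ ^ 2), 1), mem_XX.mpr ⟨abs_bb_le hs _, by simp⟩, ph_edge ?_ _ _⟩
    simp [bb_zero, abs_mul, hs]
  · have hn : ‖x‖ ≠ 0 := norm_ne_zero_iff.mpr hx
    refine ⟨(s * bb (‖x‖ ^ 2), ‖x‖⁻¹ • T.symm x), mem_XX.mpr ⟨abs_bb_le hs _, ?_⟩, ?_⟩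
    · simp only
      rw [normSq_smul, normSq_T]
      field_simp
    · simp only [ph, P]
      rw [Cj_smul _ _ _ (inv_ne_zero hn)]

lemma bb_inj {t t' : ℝ} (ht : 0 ≤ t) (ht' : 0 ≤ t') (h : bb t = bb t') : t = t' := by
  unfold bb at h
  have h1 : t + 1 ≠ 0 := by linarith
  have h2 : t' + 1 ≠ 0 := by linarith
  field_simp at h
  linarith

lemma P_fibre {s : ℝ} (hs : |s| = 1) {x y : E4} :
    P s x = P s y ↔ ∃ u ∈ Q8, T.symm y = T.symm x * u := by
  have hs0 : s ≠ 0 := by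
    rintro rfl
    simp at hs
  constructor
  · intro h
    obtain ⟨h1, h2⟩ := ph_inj (abs_bb_le hs x) (abs_bb_le hs y) h
    have h3 := bb_inj (by positivity) (by positivity) (mul_left_cancel₀ hs0 h1)
    rcases eq_or_ne x 0 with rfl | hx
    · have : y = 0 := by simpa using h3.symm
      exact ⟨1, Q8_one, by rw [this, mul_one]⟩
    · exact fibre_Cj _ (lam_inj (abs_bb_le hs x)) (T_ne hx) (by rw [normSq_T, normSq_T, h3])
        (h2 (abs_bb_lt hs hx))
  · rintro ⟨u, hu, h⟩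
    have h1 : ‖y‖ ^ 2 = ‖x‖ ^ 2 := by rw [← normSq_T, h, map_mul, hu.1, mul_one, normSq_T]
    unfold P ph
    rw [h1, h, Cj_mul_Q8 _ _ hu]

/-- The radius as a function of the parameter. -/
noncomputable def rho (b : ℝ) : ℝ := Real.sqrt ((1 / 10 + b) / (1 / 10 - b))

lemma P_polar {s : ℝ} (hs : |s| = 1) {p : ℝ × ℍ[ℝ]} (hp : p ∈ XX) (h : s * p.1 < 1 / 10) :
    P s (T (rho (s * p.1) • p.2)) = ph p.1 p.2 := by
  obtain ⟨h1, h2⟩ := mem_XX.mp hp
  have h3 : |s * p.1| ≤ 1 / 10 := by rwa [abs_mul, hs, one_mul]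
  have hss : s * s = 1 := by rw [← abs_mul_abs_self, hs, one_mul]
  have h4 := abs_le.mp h3
  have h5 : ‖T (rho (s * p.1) • p.2)‖ ^ 2 = (1 / 10 + s * p.1) / (1 / 10 - s * p.1) := by
    rw [← normSq_T, LinearIsometryEquiv.symm_apply_apply, normSq_smul, h2, mul_one, rho,
      Real.sq_sqrt (div_nonneg (by linarith) (by linarith))]
  have h6 : s * bb (‖T (rho (s * p.1) • p.2)‖ ^ 2) = p.1 := by
    rw [h5]
    have : bb ((1 / 10 + s * p.1) / (1 / 10 - s * p.1)) = s * p.1 := by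
      have h0 : 1 / 10 - s * p.1 ≠ 0 := by linarith
      generalize s * p.1 = c at h0 ⊢
      have e1 : (1 / 10 + c) / (1 / 10 - c) - 1 = 2 * c / (1 / 10 - c) := by
        rw [eq_div_iff h0, sub_mul, div_mul_cancel₀ _ h0]; ring
      have e2 : (1 / 10 + c) / (1 / 10 - c) + 1 = (1 / 5) / (1 / 10 - c) := by
        rw [eq_div_iff h0, add_mul, div_mul_cancel₀ _ h0]; ring
      rw [bb, e1, e2, div_div_div_cancel_right₀ h0]
      ring
    rw [this, ← mul_assoc, hss, one_mul]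
  rw [P, h6, LinearIsometryEquiv.symm_apply_apply]
  rcases eq_or_ne (rho (s * p.1)) 0 with h0 | h0
  · refine ph_edge ?_ _ _
    rw [rho, Real.sqrt_eq_zero (div_nonneg (by linarith) (by linarith)), div_eq_zero_iff] at h0
    have : s * p.1 = -(1 / 10) := by
      rcases h0 with h0 | h0 <;> linarith
    have h7 := congrArg abs this
    rw [abs_mul, hs, one_mul] at h7
    rw [h7]
    norm_num [abs_of_pos]
  · unfold ph
    rw [Cj_smul _ _ _ h0]

lemma closed_compl {s : ℝ} (hs : |s| = 1) (W : Set E4) (hW : IsOpen W) :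
    IsClosed ((fun p : ℝ × ℍ[ℝ] => ph p.1 p.2) '' XX \ P s '' W) := by
  let Z : Set (ℝ × ℍ[ℝ]) := ⋃ u ∈ Q8, {p | s * p.1 < 1 / 10} ∩
    (fun p : ℝ × ℍ[ℝ] => T (rho (s * p.1) • p.2 * u)) ⁻¹' W
  have hZ : IsOpen Z := by
    refine isOpen_biUnion fun u _ => ContinuousOn.isOpen_inter_preimage ?_
      (isOpen_lt (by fun_prop) continuous_const) hW
    refine T.continuous.comp_continuousOn (ContinuousOn.mul (ContinuousOn.fun_smul ?_
      continuous_snd.continuousOn) continuousOn_const)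
    refine Real.continuous_sqrt.comp_continuousOn (ContinuousOn.div (by fun_prop) (by fun_prop)
      fun p hp => ?_)
    have : s * p.1 < 1 / 10 := hp
    linarith
  have hmem : ∀ p ∈ XX, p ∈ Z ↔ ph p.1 p.2 ∈ P s '' W := by
    intro p hp
    simp only [Z, mem_iUnion, mem_inter_iff, mem_preimage, mem_ofPred_eq]
    constructor
    · rintro ⟨u, hu, h1, h2⟩
      refine ⟨_, h2, ?_⟩
      rw [← P_polar hs hp h1]
      symm
      rw [P_fibre hs]
      exact ⟨u, hu, by simp only [LinearIsometryEquiv.symm_apply_apply]⟩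
    · rintro ⟨x, hx, h⟩
      have hss : s * s = 1 := by rw [← abs_mul_abs_self, hs, one_mul]
      have h1 : s * p.1 < 1 / 10 := by
        rw [← (ph_inj (abs_bb_le hs x) (mem_XX.mp hp).1 h).1, ← mul_assoc, hss, one_mul]
        exact bb_lt (by positivity)
      rw [← P_polar hs hp h1] at h
      obtain ⟨u, hu, h2⟩ := (P_fibre hs).mp h.symm
      rw [LinearIsometryEquiv.symm_apply_apply] at h2
      refine ⟨u, hu, h1, ?_⟩
      rw [← h2, LinearIsometryEquiv.apply_symm_apply]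
      exact hx
  have e : (fun p : ℝ × ℍ[ℝ] => ph p.1 p.2) '' XX \ P s '' W =
      (fun p : ℝ × ℍ[ℝ] => ph p.1 p.2) '' (XX \ Z) := by
    ext v
    constructor
    · rintro ⟨⟨p, hp, rfl⟩, h⟩
      exact ⟨p, ⟨hp, fun hz => h ((hmem p hp).mp hz)⟩, rfl⟩
    · rintro ⟨p, ⟨hp, hz⟩, rfl⟩
      exact ⟨⟨p, hp, rfl⟩, fun h => hz ((hmem p hp).mpr h)⟩
  rw [e]
  exact ((XX_compact.diff hZ).image_of_continuousOn (cont_ph.mono sdiff_subset)).isClosed

lemma conn {M : Type*} [TopologicalSpace M] [PreconnectedSpace M] {D D' C S : Set M}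
    (h1 : IsClosed D) (h2 : IsClosed D') (h3 : IsClosed C) (hd : Disjoint D D')
    (hc : ∀ m, m ∈ D ∨ m ∈ D' ∨ m ∈ C) (hS : IsConnected S) (hSD : S ⊆ D) (hCS : C ∩ D ⊆ S) :
    IsConnected D := by
  refine ⟨hS.1.mono hSD, ?_⟩
  have aux : ∀ t t' : Set M, IsClosed t → IsClosed t' → D ⊆ t ∪ t' → (D ∩ t').Nonempty →
      ¬ (D ∩ (t ∩ t')).Nonempty → (S ∩ t').Nonempty := by
    intro t t' ht ht' hsub hne hno
    by_contra hS'
    have hB : IsClopen (D ∩ t') := by
      refine ⟨h1.inter ht', ?_⟩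
      rw [← isClosed_compl_iff]
      have : (D ∩ t')ᶜ = (D ∩ t) ∪ D' ∪ C := by
        ext m
        simp only [mem_compl_iff, mem_inter_iff, mem_union]
        constructor
        · intro h
          rcases hc m with a | a | a
          · rcases hsub a with b | b
            · exact Or.inl (Or.inl ⟨a, b⟩)
            · exact absurd ⟨a, b⟩ h
          · exact Or.inl (Or.inr a)
          · exact Or.inr a
        · rintro ((⟨a, b⟩ | a) | a) ⟨c, d⟩
          · exact hno ⟨m, a, b, d⟩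
          · exact Set.disjoint_left.mp hd c a
          · exact hS' ⟨m, hCS ⟨a, c⟩, d⟩
      rw [this]
      exact ((h1.inter ht).union h2).union h3
    obtain ⟨m, hm⟩ := hS.1
    have : m ∈ D ∩ t' := by
      rw [hB.eq_univ hne]
      exact mem_univ _
    exact hS' ⟨m, hm, this.2⟩
  rw [isPreconnected_closed_iff]
  intro t t' ht ht' hsub hn hn'
  by_contra hno
  obtain ⟨m, hm⟩ := isPreconnected_closed_iff.mp hS.2 t t' ht ht' (hSD.trans hsub)
    (aux t' t ht' ht (by rwa [union_comm]) hn (by rwa [inter_comm t'])) (aux t t' ht ht' hsub hn' hno)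
  exact hno ⟨m, hSD hm.1, hm.2⟩

lemma exists_kappa (M : Type*) [TopologicalSpace M] [ChartedSpace E4 M] [IsManifold (𝓡 4) ∞ M]
    [Nonempty M] : ∃ (κ : E4 → M) (κi : M → E4) (O : Set M), IsOpen O ∧ ContinuousOn κi O ∧
      (∀ z ∈ ball (0 : E4) 20, κ z ∈ O ∧ κi (κ z) = z) ∧
      (∀ m ∈ O, κi m ∈ ball (0 : E4) 20 ∧ κ (κi m) = m) ∧
      ContMDiffOn (𝓡 4) (𝓡 4) ∞ κ (ball 0 20) ∧
      ∀ z ∈ ball (0 : E4) 20, Function.Bijective (mfderiv (𝓡 4) (𝓡 4) κ z) := by
  obtain ⟨m0⟩ := ‹Nonempty M›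
  set e := chartAt E4 m0 with he
  obtain ⟨ε, hε, hb⟩ := Metric.isOpen_iff.mp e.open_target (e m0) (mem_chart_target E4 m0)
  let A : E4 → E4 := fun z => e m0 + (ε / 20) • z
  have hA : ∀ z ∈ ball (0 : E4) 20, A z ∈ ball (e m0) ε := by
    intro z hz
    rw [mem_ball_zero_iff] at hz
    rw [mem_ball, dist_eq_norm, add_sub_cancel_left, norm_smul, Real.norm_eq_abs,
      abs_of_pos (by positivity)]
    nlinarith
  have hAd : ∀ z, HasFDerivAt A ((ε / 20) • ContinuousLinearMap.id ℝ E4) z := fun z =>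
    ((hasFDerivAt_id z).const_smul (ε / 20)).const_add _
  have hAc : ContDiff ℝ ∞ A := contDiff_const.add (contDiff_id.const_smul _)
  refine ⟨e.symm ∘ A, fun m => (20 / ε) • (e m - e m0), e.source ∩ e ⁻¹' ball (e m0) ε,
    e.continuousOn.isOpen_inter_preimage e.open_source isOpen_ball,
    ((e.continuousOn.mono inter_subset_left).fun_sub continuousOn_const).fun_const_smul _,
    ?_, ?_, ?_, ?_⟩
  · intro z hz
    have h1 := hb (hA z hz)
    refine ⟨⟨e.map_target h1, ?_⟩, ?_⟩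
    · simp only [mem_preimage, Function.comp, e.right_inv h1]
      exact hA z hz
    · simp only [Function.comp, e.right_inv h1, A, add_sub_cancel_left, smul_smul]
      rw [show 20 / ε * (ε / 20) = 1 by field_simp, one_smul]
  · rintro m ⟨h1, h2⟩
    rw [mem_preimage, mem_ball, dist_eq_norm] at h2
    refine ⟨?_, ?_⟩
    · rw [mem_ball_zero_iff, norm_smul, Real.norm_eq_abs, abs_of_pos (by positivity),
        div_mul_eq_mul_div, div_lt_iff₀ hε]
      linarith
    · simp only [Function.comp, A, smul_smul]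
      rw [show ε / 20 * (20 / ε) = 1 by field_simp, one_smul, add_sub_cancel, e.left_inv h1]
  · exact (contMDiffOn_chart_symm (I := 𝓡 4) (n := ∞) (x := m0)).comp
      hAc.contMDiff.contMDiffOn fun z hz => hb (hA z hz)
  · intro z hz
    have h1 := hb (hA z hz)
    have hm := (mdifferentiable_chart (I := 𝓡 4) m0).symm
    rw [mfderiv_comp z (hm.mdifferentiableAt h1) (hAd z).differentiableAt.mdifferentiableAt,
      mfderiv_eq_fderiv, (hAd z).fderiv]
    refine (hm.mfderiv_bijective h1).comp ?_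
    exact (LinearEquiv.smulOfNeZero ℝ E4 (ε / 20) (by positivity)).bijective

end Pool.Agent.H467Z.Orb
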